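import Mathlib
import Pool.Agent.Y335.FL.Order
import Pool.Agent.Y335.FL.Iso
import Pool.Agent.Y335.FL.Ahl

/-! # Nowhere-zero 5-flows in graphs of branchwidth at most eighteen -/

set_option autoImplicit false
set_option linter.unusedSectionVars false

namespace Pool.Agent.R15.BW18

open Finset Pool.Agent.TH676.Z Pool.Agent.Y335.FL

/-- numerical consequence of the Moore bound for irregular graphs -/
theorem ex18 (V : Type) [Fintype V] [DecidableEq V] (G : SimpleGraph V)
    [DecidableRel G.Adj] (hdeg : ∀ v, 2 ≤ G.degree v) (hg : Girth G.Adj 12)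
    (hn : Fintype.card V ≤ 75) (hm : 2 * Fintype.card V + 7 ≤ 2 * G.edgeFinset.card)
    (hcon : 3 * Fintype.card V ≤ 2 * G.edgeFinset.card + 18) : False := by
  have hV : Nonempty V := by
    have h0 : 0 < G.edgeFinset.card := by omega
    obtain ⟨e, he⟩ := Finset.card_pos.1 h0
    exact ⟨e.out.1⟩
  have h1 := ahl V G hdeg hg
  have hnpos : 0 < Fintype.card V := Fintype.card_pos
  obtain ⟨n, hn'⟩ : ∃ n, n = Fintype.card V := ⟨_, rfl⟩
  obtain ⟨m, hm'⟩ : ∃ m, m = G.edgeFinset.card := ⟨_, rfl⟩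
  rw [← hn'] at h1 hn hm hcon hnpos
  rw [← hm'] at h1 hm hcon
  have hn0 : (0 : ℝ) < n := by exact_mod_cast hnpos
  have key : ∀ y : ℝ, 0 ≤ y → y * n ≤ 2 * m - n → 2 * ∑ i ∈ range 6, y ^ i ≤ n := by
    intro y hy hyn
    refine le_trans ?_ h1
    refine mul_le_mul_of_nonneg_left (Finset.sum_le_sum fun i _ => ?_) (by norm_num)
    refine pow_le_pow_left₀ hy ?_ i
    rw [le_sub_iff_add_le, le_div_iff₀ hn0]
    linarith
  have hm1 : (n : ℝ) + 4 ≤ m := by
    have : n + 4 ≤ m := by omega
    exact_mod_cast this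
  have hm2 : 3 * (n : ℝ) ≤ 2 * m + 18 := by exact_mod_cast hcon
  rcases le_or_gt n 26 with h26 | h26
  · have h2 := key (1 + 8 / n) (by positivity) (by
      rw [add_mul, div_mul_cancel₀ _ hn0.ne']
      linarith)
    clear key h1 hn' hm' hm1 hm2 hcon hm hn hn0
    interval_cases n <;> norm_num [Finset.sum_range_succ] at h2
  · have h27 : (27 : ℝ) ≤ n := by exact_mod_cast h26
    have h2 := key (2 - 18 / n) (by
      rw [sub_nonneg, div_le_iff₀ hn0]
      linarith) (by
      rw [sub_mul, div_mul_cancel₀ _ hn0.ne']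
      linarith)
    clear key h1 hn' hm' hm1 hm2 hcon hm hn0 h27
    interval_cases n <;> norm_num [Finset.sum_range_succ] at h2

open IsoAux in
/-- the number of outer neighbours of a vertex set -/
theorem isoT (t : ℕ) (V : Type) [Fintype V] [DecidableEq V] (G : SimpleGraph V)
    [DecidableRel G.Adj] (hg : Girth G.Adj 12) (U : Finset V) (hU : ∀ v ∈ U, 3 ≤ G.degree v)
    (h25 : 25 ≤ U.card) (ht : t ≤ 18) (hm : 2 * U.card + t ≤ 132) :
    t + 1 ≤ (univ.filter (fun v => v ∉ U ∧ ∃ x ∈ U, G.Adj x v)).card := by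
  by_contra hcon
  rw [not_le] at hcon
  obtain ⟨N, hN⟩ : ∃ N : Finset V, N = univ.filter (fun v => v ∉ U ∧ ∃ x ∈ U, G.Adj x v) :=
    ⟨_, rfl⟩
  rw [← hN] at hcon
  have hNm : ∀ v, v ∈ N ↔ v ∉ U ∧ ∃ x ∈ U, G.Adj x v := by
    intro v
    rw [hN]
    simp
  have hdis : Disjoint U N := Finset.disjoint_left.2 fun v hv hvN => ((hNm v).1 hvN).1 hv
  have has : ∀ x y, ai G U x y = ai G U y x := by
    intro x y
    unfold ai
    exact if_congr (and_congr (G.adj_comm x y) or_comm) rfl rfl
  have ha0 : ∀ x, ai G U x x = 0 := by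
    intro x
    unfold ai
    rw [if_neg fun h => G.loopless.irrefl x h.1]
  obtain ⟨f, hf⟩ : ∃ f, f = ∑ v ∈ N, ∑ y ∈ U, ai G U v y := ⟨_, rfl⟩
  obtain ⟨s, hs⟩ : ∃ s, s = ∑ v ∈ U, ∑ y ∈ U, ai G U v y := ⟨_, rfl⟩
  have hf' : ∑ v ∈ U, ∑ y ∈ N, ai G U v y = f := by
    rw [hf, Finset.sum_comm]
    exact Finset.sum_congr rfl fun v _ => Finset.sum_congr rfl fun y _ => has _ _
  have hNN : ∀ v ∈ N, ∑ y ∈ N, ai G U v y = 0 := by
    intro v hv
    refine Finset.sum_eq_zero fun y hy => ?_
    unfold ai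
    rw [if_neg]
    rintro ⟨-, h | h⟩
    · exact ((hNm v).1 hv).1 h
    · exact ((hNm y).1 hy).1 h
  have hsplit : ∀ v, ∑ y ∈ U ∪ N, ai G U v y = ∑ y ∈ U, ai G U v y + ∑ y ∈ N, ai G U v y :=
    fun v => Finset.sum_union hdis
  have hD : Dg (ai G U) (U ∪ N) = s + 2 * f := by
    unfold Dg
    rw [Finset.sum_union hdis, Finset.sum_congr rfl fun v _ => hsplit v,
      Finset.sum_congr (s₁ := N) rfl fun v hv => (hsplit v).trans (by rw [hNN v hv, add_zero]),
      Finset.sum_add_distrib, hf', ← hs, ← hf]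
    ring
  -- degrees on `U`
  have hsf : 3 * U.card ≤ s + f := by
    have h1 : s + f = ∑ v ∈ U, ∑ y ∈ U ∪ N, ai G U v y := by
      rw [Finset.sum_congr rfl fun v _ => hsplit v, Finset.sum_add_distrib, hf', hs]
    rw [h1, mul_comm, ← smul_eq_mul, ← Finset.sum_const]
    refine Finset.sum_le_sum fun v hv => (hU v hv).trans ?_
    rw [← SimpleGraph.card_neighborFinset_eq_degree]
    have h2 : ∀ y ∈ U ∪ N, ai G U v y = if G.Adj v y then 1 else 0 := by
      intro y _
      unfold ai
      simp [hv]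
    rw [Finset.sum_congr rfl h2, ← Finset.card_filter]
    refine Finset.card_le_card fun y hy => ?_
    rw [SimpleGraph.mem_neighborFinset] at hy
    rw [Finset.mem_filter, Finset.mem_union]
    refine ⟨?_, hy⟩
    by_cases hyU : y ∈ U
    · exact Or.inl hyU
    · exact Or.inr ((hNm y).2 ⟨hyU, v, hv, hy⟩)
  have hone : ∀ v ∈ N, 1 ≤ ∑ y ∈ U, ai G U v y := by
    intro v hv
    obtain ⟨-, x, hx, hxv⟩ := (hNm v).1 hv
    have h1 : ai G U v x = 1 := by
      unfold ai
      rw [if_pos ⟨hxv.symm, Or.inr hx⟩]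
    rw [← h1]
    exact Finset.single_le_sum (f := fun y => ai G U v y) (fun _ _ => Nat.zero_le _) hx
  have hfN : N.card ≤ f := by
    rw [hf, Finset.card_eq_sum_ones]
    exact Finset.sum_le_sum hone
  have hcard : (U ∪ N).card = U.card + N.card := Finset.card_union_of_disjoint hdis
  have heven := Dg_GY G U (U ∪ N)
  have hc : 2 * (U ∪ N).card + 8 ≤ Dg (ai G U) (U ∪ N) := by omega
  obtain ⟨Y, hY1, hY2, hY3⟩ := core has ha0 _ (U ∪ N) rfl hc
  have h1 := Dg_GY G U Y
  have h2 : Fintype.card {x // x ∈ Y} = Y.card := Fintype.card_coe Y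
  obtain ⟨b, hb⟩ : ∃ b, b = (Y.filter (· ∈ N)).card := ⟨_, rfl⟩
  have h5 : Y.card ≤ U.card + b := by
    have h6 : Y ⊆ U ∪ Y.filter (· ∈ N) := by
      intro y hy
      rcases Finset.mem_union.1 (hY1 hy) with h | h
      · exact Finset.mem_union_left _ h
      · exact Finset.mem_union_right _ (Finset.mem_filter.2 ⟨hy, h⟩)
    rw [hb]
    exact (Finset.card_le_card h6).trans (Finset.card_union_le _ _)
  have hbN : b ≤ N.card := by
    rw [hb]
    refine Finset.card_le_card fun y hy => (Finset.mem_filter.1 hy).2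
  have h6 : N.card + b ≤ f := by
    have h7 : b = ∑ v ∈ N, if v ∈ Y then 1 else 0 := by
      rw [hb, ← Finset.card_filter]
      congr 1
      ext v
      simp only [Finset.mem_filter]
      exact and_comm
    rw [h7, Finset.card_eq_sum_ones, ← Finset.sum_add_distrib, hf]
    refine Finset.sum_le_sum fun v hv => ?_
    by_cases hvY : v ∈ Y
    · rw [if_pos hvY]
      refine (hY2 v hvY).trans ?_
      have h8 : ∑ z ∈ Y, ai G U v z ≤ ∑ z ∈ U ∪ N, ai G U v z :=
        Finset.sum_le_sum_of_subset hY1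
      rw [hsplit, hNN v hv, add_zero] at h8
      exact h8
    · rw [if_neg hvY, add_zero]
      exact hone v hv
  exact ex18 {x // x ∈ Y} (GY G U Y) (fun v => by
    rw [deg_GY]
    exact hY2 v.1 v.2) (girth_GY G U Y hg) (by omega) (by omega) (by omega)

/-- binary trees with leaves labelled by `E` -/
inductive ETree (E : Type) : Type
  | leaf : E → ETree E
  | node : ETree E → ETree E → ETree E

/-- the labels of the leaves -/
def ETree.labels {E : Type} [DecidableEq E] : ETree E → Finset E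
  | .leaf e => {e}
  | .node l r => l.labels ∪ r.labels

/-- the vertices with proper edges in `F` and proper edges outside `F` -/
def bdy {V E : Type} [Fintype V] [DecidableEq V] [Fintype E] [DecidableEq E] (src dst : E → V)
    (F : Finset E) : Finset V :=
  univ.filter (fun x => (∃ e ∈ F, src e ≠ dst e ∧ (src e = x ∨ dst e = x)) ∧
    ∃ e ∈ Fᶜ, src e ≠ dst e ∧ (src e = x ∨ dst e = x))

/-- all subtrees have boundaries of at most `w` vertices -/
def ETree.Width {V E : Type} [Fintype V] [DecidableEq V] [Fintype E] [DecidableEq E]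
    (src dst : E → V) (w : ℕ) : ETree E → Prop
  | .leaf e => (bdy src dst {e}).card ≤ w
  | .node l r => (bdy src dst (l.labels ∪ r.labels)).card ≤ w ∧ l.Width src dst w ∧
      r.Width src dst w

variable {V E : Type} [Fintype V] [DecidableEq V] [Fintype E] [DecidableEq E]

theorem mem_bdy {src dst : E → V} {F : Finset E} {x : V} : x ∈ bdy src dst F ↔
    (∃ e ∈ F, src e ≠ dst e ∧ (src e = x ∨ dst e = x)) ∧
    ∃ e ∉ F, src e ≠ dst e ∧ (src e = x ∨ dst e = x) := by
  simp [bdy]

theorem Width.root {src dst : E → V} {w : ℕ} {T : ETree E} (h : T.Width src dst w) :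
    (bdy src dst T.labels).card ≤ w := by
  cases T with
  | leaf e => exact h
  | node l r => exact h.1

theorem width_mono {src dst src' dst' : E → V} {w : ℕ}
    (hm : ∀ F, (bdy src' dst' F).card ≤ (bdy src dst F).card) : ∀ T : ETree E,
    T.Width src dst w → T.Width src' dst' w := by
  intro T
  induction T with
  | leaf e => exact fun h => (hm _).trans h
  | node l r ihl ihr => exact fun h => ⟨(hm _).trans h.1, ihl h.2.1, ihr h.2.2⟩

/-- branchwidth at most `w` -/
def BW (w : ℕ) (src dst : E → V) : Prop :=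
  ∃ T : ETree E, T.labels = univ ∧ T.Width src dst w

theorem mc_bw (w : ℕ) : MC (V := V) (E := E) (BW w) := by
  constructor
  · rintro src dst e ⟨T, h1, h2⟩ _
    refine ⟨T, h1, width_mono (fun F => card_le_card fun x hx => ?_) T h2⟩
    rw [mem_bdy] at hx ⊢
    have key : ∀ d, src d ≠ Pool.Agent.TH676.Z.lp src dst {e} d ∧
        (src d = x ∨ Pool.Agent.TH676.Z.lp src dst {e} d = x) →
        src d ≠ dst d ∧ (src d = x ∨ dst d = x) := by
      intro d hd
      unfold Pool.Agent.TH676.Z.lp at hd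
      split_ifs at hd with h
      · exact absurd rfl hd.1
      · exact hd
    obtain ⟨⟨a, ha, ha'⟩, b, hb, hb'⟩ := hx
    exact ⟨⟨a, ha, key a ha'⟩, b, hb, key b hb'⟩
  · rintro src dst e ⟨T, h1, h2⟩ hne
    refine ⟨T, h1, width_mono (fun F => ?_) T h2⟩
    set u := src e with hu
    set v := dst e with hv
    have hcv : ∀ x, ctr u v x ≠ v := by
      intro x hx
      unfold ctr at hx
      split_ifs at hx with h1
      · exact hne hx
      · exact h1 hx
    have hcu : ∀ y, ctr u v y = u → y = u ∨ y = v := by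
      intro y hy
      unfold ctr at hy
      split_ifs at hy with h
      · exact Or.inr h
      · exact Or.inl hy
    have hcx : ∀ x y, x ≠ u → ctr u v y = x → y = x := by
      intro x y hx hy
      unfold ctr at hy
      split_ifs at hy with h
      · exact absurd hy.symm hx
      · exact hy
    have prop : ∀ d, (ctr u v ∘ src) d ≠ (ctr u v ∘ dst) d → src d ≠ dst d := by
      intro d hd h
      exact hd (by simp [h])
    have hx1 : ∀ x ∈ bdy (ctr u v ∘ src) (ctr u v ∘ dst) F, x ≠ u → x ∈ bdy src dst F := by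
      intro x hx hxu
      rw [mem_bdy] at hx ⊢
      have k : ∀ d, (ctr u v ∘ src) d ≠ (ctr u v ∘ dst) d ∧
          ((ctr u v ∘ src) d = x ∨ (ctr u v ∘ dst) d = x) →
          src d ≠ dst d ∧ (src d = x ∨ dst d = x) := by
        rintro d ⟨h1, h2⟩
        exact ⟨prop d h1, h2.imp (hcx x _ hxu) (hcx x _ hxu)⟩
      obtain ⟨⟨a, ha, ha'⟩, b, hb, hb'⟩ := hx
      exact ⟨⟨a, ha, k a ha'⟩, b, hb, k b hb'⟩
    have hv1 : v ∉ bdy (ctr u v ∘ src) (ctr u v ∘ dst) F := by
      intro h
      rw [mem_bdy] at h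
      obtain ⟨⟨a, -, -, ha | ha⟩, -⟩ := h
      · exact hcv _ ha
      · exact hcv _ ha
    by_cases hub : u ∈ bdy (ctr u v ∘ src) (ctr u v ∘ dst) F
    · have huv : u ∈ bdy src dst F ∨ v ∈ bdy src dst F := by
        by_contra hcon
        push Not at hcon
        rw [mem_bdy, mem_bdy] at hcon
        rw [mem_bdy] at hub
        have k : ∀ d, (ctr u v ∘ src) d ≠ (ctr u v ∘ dst) d ∧
            ((ctr u v ∘ src) d = u ∨ (ctr u v ∘ dst) d = u) →
            (src d ≠ dst d ∧ (src d = u ∨ dst d = u)) ∨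
            (src d ≠ dst d ∧ (src d = v ∨ dst d = v)) := by
          rintro d ⟨h1, h2⟩
          rcases h2 with h2 | h2
          · rcases hcu _ h2 with h3 | h3
            · exact Or.inl ⟨prop d h1, Or.inl h3⟩
            · exact Or.inr ⟨prop d h1, Or.inl h3⟩
          · rcases hcu _ h2 with h3 | h3
            · exact Or.inl ⟨prop d h1, Or.inr h3⟩
            · exact Or.inr ⟨prop d h1, Or.inr h3⟩
        obtain ⟨⟨a, ha, ha'⟩, b, hb, hb'⟩ := hub
        have eu : src e ≠ dst e ∧ (src e = u ∨ dst e = u) := ⟨hne, Or.inl rfl⟩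
        have ev : src e ≠ dst e ∧ (src e = v ∨ dst e = v) := ⟨hne, Or.inr rfl⟩
        by_cases heF : e ∈ F
        · rcases k b hb' with h | h
          · exact hcon.1 ⟨⟨e, heF, eu⟩, b, hb, h⟩
          · exact hcon.2 ⟨⟨e, heF, ev⟩, b, hb, h⟩
        · rcases k a ha' with h | h
          · exact hcon.1 ⟨⟨a, ha, h⟩, e, heF, eu⟩
          · exact hcon.2 ⟨⟨a, ha, h⟩, e, heF, ev⟩
      rcases huv with h | h
      · refine card_le_card fun x hx => ?_
        by_cases hxu : x = u
        · rw [hxu]; exact h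
        · exact hx1 x hx hxu
      · have hsub : (bdy (ctr u v ∘ src) (ctr u v ∘ dst) F) ⊆
            insert u ((bdy src dst F).erase v) := by
          intro x hx
          by_cases hxu : x = u
          · rw [hxu]; exact mem_insert_self _ _
          · refine mem_insert_of_mem (mem_erase.2 ⟨?_, hx1 x hx hxu⟩)
            rintro rfl
            exact hv1 hx
        have h3 := (card_le_card hsub).trans (card_insert_le _ _)
        rw [card_erase_of_mem h] at h3
        have h4 : 0 < (bdy src dst F).card := card_pos.2 ⟨v, h⟩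
        omega
    · refine card_le_card fun x hx => hx1 x hx ?_
      rintro rfl
      exact hub hx

open Classical in
/-- the vertices all of whose proper edges are in `F` -/
noncomputable def inr (src dst : E → V) (F : Finset E) : Finset V :=
  univ.filter (fun x => Nis src dst x ∧
    ∀ e, src e ≠ dst e → (src e = x ∨ dst e = x) → e ∈ F)

theorem mem_inr {src dst : E → V} {F : Finset E} {x : V} : x ∈ inr src dst F ↔
    Nis src dst x ∧ ∀ e, src e ≠ dst e → (src e = x ∨ dst e = x) → e ∈ F := by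
  simp [inr]

theorem inr_small {s d : E → V} (hT : Three (Adj s d)) (hG : Girth (Adj s d) 12) :
    ∀ T : ETree E, T.Width s d 18 → (inr s d T.labels).card ≤ 24 := by
  classical
  have hsy : ∀ a b, Adj s d a b → Adj s d b a := fun a b h => ⟨h.1.symm, h.2.imp fun e he => he.symm⟩
  have hir : ∀ a, ¬ Adj s d a a := fun a h => h.1 rfl
  set G : SimpleGraph V := ⟨Adj s d, ⟨fun a b h => hsy a b h⟩, ⟨hir⟩⟩ with hGdef
  have nadj : ∀ x, Nis s d x → ∃ y, Adj s d x y := by
    rintro x ⟨e, he, h | h⟩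
    · exact ⟨d e, by rw [← h]; exact he, e, Or.inl ⟨h, rfl⟩⟩
    · exact ⟨s e, by rw [← h]; exact he.symm, e, Or.inr ⟨rfl, h⟩⟩
  intro T
  induction T with
  | leaf e =>
    intro _
    have : inr s d (ETree.leaf e).labels = ∅ := by
      rw [eq_empty_iff_forall_notMem]
      intro x hx
      rw [mem_inr] at hx
      obtain ⟨hx1, hx2⟩ := hx
      obtain ⟨y, hy⟩ := nadj x hx1
      obtain ⟨a, b, c, ⟨ha, ea, ha'⟩, ⟨hb, eb, hb'⟩, -, hab, -, -⟩ := hT x y hy
      have k : ∀ (z : V) (g : E), x ≠ z → ((s g = x ∧ d g = z) ∨ (s g = z ∧ d g = x)) →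
          g = e := by
        intro z g hz hg
        have h1 := hx2 g (by
          rcases hg with ⟨p, q⟩ | ⟨p, q⟩
          · rw [p, q]; exact hz
          · rw [p, q]; exact hz.symm) (by
          rcases hg with ⟨p, q⟩ | ⟨p, q⟩
          · exact Or.inl p
          · exact Or.inr q)
        simpa [ETree.labels] using h1
      have e1 := k a ea ha ha'
      have e2 := k b eb hb hb'
      subst e1
      rw [e2] at hb'
      apply hab
      rcases ha' with ⟨p, q⟩ | ⟨p, q⟩ <;> rcases hb' with ⟨p', q'⟩ | ⟨p', q'⟩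
      · exact q.symm.trans q'
      · exact absurd (p'.symm.trans p).symm hb
      · exact absurd (p.symm.trans p').symm ha
      · exact p.symm.trans p'
    rw [this]
    simp
  | node l r ihl ihr =>
    intro hW
    obtain ⟨hc, hl, hr⟩ := hW
    have hA := ihl hl
    have hB := ihr hr
    have hA' := Width.root hl
    have hB' := Width.root hr
    set A := l.labels with hAd
    set B := r.labels with hBd
    have hlab : (ETree.node l r).labels = A ∪ B := rfl
    rw [hlab]
    set X := inr s d (A ∪ B) \ (inr s d A ∪ inr s d B) with hX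
    have hXm : ∀ x ∈ X, x ∈ bdy s d A ∩ bdy s d B ∧ x ∉ bdy s d (A ∪ B) := by
      intro x hx
      rw [hX, mem_sdiff, mem_union, mem_inr, mem_inr, mem_inr, not_or] at hx
      obtain ⟨⟨h1, h2⟩, h3, h4⟩ := hx
      have h5 : ∃ e, s e ≠ d e ∧ (s e = x ∨ d e = x) ∧ e ∉ A := by
        by_contra hcon
        push Not at hcon
        exact h3 ⟨h1, hcon⟩
      have h6 : ∃ e, s e ≠ d e ∧ (s e = x ∨ d e = x) ∧ e ∉ B := by
        by_contra hcon
        push Not at hcon
        exact h4 ⟨h1, hcon⟩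
      obtain ⟨e1, a1, a2, a3⟩ := h5
      obtain ⟨e2, b1, b2, b3⟩ := h6
      have c1 : e1 ∈ B := (mem_union.1 (h2 e1 a1 a2)).resolve_left a3
      have c2 : e2 ∈ A := (mem_union.1 (h2 e2 b1 b2)).resolve_right b3
      refine ⟨mem_inter.2 ⟨mem_bdy.2 ⟨⟨e2, c2, b1, b2⟩, e1, a3, a1, a2⟩,
        mem_bdy.2 ⟨⟨e1, c1, a1, a2⟩, e2, b3, b1, b2⟩⟩, ?_⟩
      intro h
      obtain ⟨-, g, g1, g2, g3⟩ := mem_bdy.1 h
      exact g1 (h2 g g2 g3)
    have hsub : bdy s d (A ∪ B) ∪ X ⊆ bdy s d A ∪ bdy s d B := by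
      intro x hx
      rcases mem_union.1 hx with h | h
      · obtain ⟨⟨e1, a1, a2⟩, e2, b1, b2⟩ := mem_bdy.1 h
        rw [mem_union, not_or] at b1
        rcases mem_union.1 a1 with h' | h'
        · exact mem_union_left _ (mem_bdy.2 ⟨⟨e1, h', a2⟩, e2, b1.1, b2⟩)
        · exact mem_union_right _ (mem_bdy.2 ⟨⟨e1, h', a2⟩, e2, b1.2, b2⟩)
      · exact mem_union_left _ (mem_inter.1 (hXm x h).1).1
    have hdj : Disjoint (bdy s d (A ∪ B)) X :=
      Finset.disjoint_left.2 fun x h1 h2 => (hXm x h2).2 h1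
    have c1 := card_le_card hsub
    rw [card_union_of_disjoint hdj] at c1
    have c2 : X.card ≤ (bdy s d A ∩ bdy s d B).card :=
      card_le_card fun x hx => (hXm x hx).1
    have c3 := card_union_add_card_inter (bdy s d A) (bdy s d B)
    have c4 : inr s d (A ∪ B) ⊆ (inr s d A ∪ inr s d B) ∪ X := by
      intro x hx
      by_cases h : x ∈ inr s d A ∪ inr s d B
      · exact mem_union_left _ h
      · exact mem_union_right _ (mem_sdiff.2 ⟨hx, h⟩)
    have c5 := (card_le_card c4).trans (card_union_le _ _)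
    have c6 := card_union_le (inr s d A) (inr s d B)
    by_contra hcon
    push Not at hcon
    have hdeg : ∀ v ∈ inr s d (A ∪ B), 3 ≤ G.degree v := by
      intro v hv
      obtain ⟨y, hy⟩ := nadj v (mem_inr.1 hv).1
      obtain ⟨a, b, c, ha, hb', hc', hab, hac, hbc⟩ := hT v y hy
      rw [← SimpleGraph.card_neighborFinset_eq_degree]
      have h4 : ({a, b, c} : Finset V) ⊆ G.neighborFinset v := by
        intro z hz
        simp only [mem_insert, mem_singleton] at hz
        rw [SimpleGraph.mem_neighborFinset]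
        rcases hz with rfl | rfl | rfl
        · exact ha
        · exact hb'
        · exact hc'
      calc 3 = ({a, b, c} : Finset V).card := by
            rw [card_insert_of_notMem (by simp [hab, hac]), card_pair hbc]
        _ ≤ _ := card_le_card h4
    have hiso := isoT (bdy s d (A ∪ B)).card V G hG (inr s d (A ∪ B)) hdeg (by omega) hc
      (by omega)
    have hout : (univ.filter (fun v => v ∉ inr s d (A ∪ B) ∧
        ∃ x ∈ inr s d (A ∪ B), G.Adj x v)) ⊆ bdy s d (A ∪ B) := by
      intro v hv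
      obtain ⟨-, hv1, x, hx, hne, e, he⟩ := mem_filter.1 hv
      obtain ⟨hx1, hx2⟩ := mem_inr.1 hx
      have p1 : s e ≠ d e := by
        rcases he with ⟨p, q⟩ | ⟨p, q⟩
        · rw [p, q]; exact hne
        · rw [p, q]; exact hne.symm
      have p2 : e ∈ A ∪ B := hx2 e p1 (by
        rcases he with ⟨p, q⟩ | ⟨p, q⟩
        · exact Or.inl p
        · exact Or.inr q)
      have p3 : s e = v ∨ d e = v := by
        rcases he with ⟨p, q⟩ | ⟨p, q⟩
        · exact Or.inr q
        · exact Or.inl p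
      have p4 : ∃ g, s g ≠ d g ∧ (s g = v ∨ d g = v) ∧ g ∉ A ∪ B := by
        by_contra hcon'
        push Not at hcon'
        exact hv1 (mem_inr.2 ⟨⟨e, p1, p3⟩, hcon'⟩)
      obtain ⟨g, g1, g2, g3⟩ := p4
      exact mem_bdy.2 ⟨⟨e, p2, p1, p3⟩, g, g3, g1, g2⟩
    have := card_le_card hout
    omega

theorem flow_bw (hg : St_girth12) {src dst : E → V} (h : BW 18 src dst)
    (hb : Br src dst ∅ ∅) : FlowOn src dst ∅ ∅ := by
  classical
  by_contra hn
  obtain ⟨s, d, hs, hM⟩ := crit V E _ (mc_bw 18) src dst h hb hn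
  obtain ⟨-, hT⟩ := gi_all V E s d hM
  have hG := hg V E s d hM
  have hsy : ∀ a b, Adj s d a b → Adj s d b a := fun a b h => ⟨h.1.symm, h.2.imp fun e he => he.symm⟩
  have hir : ∀ a, ¬ Adj s d a a := fun a h => h.1 rfl
  refine hM.nf (flow_of_loops fun e => ?_)
  by_contra he
  have hadj : Adj s d (s e) (d e) := ⟨he, e, Or.inl ⟨rfl, rfl⟩⟩
  have h126 := moore V (Adj s d) hsy hir hG hT ⟨_, _, hadj⟩
  obtain ⟨T, hT1, hT2⟩ := hs
  have h24 := inr_small hT hG T hT2
  rw [hT1] at h24
  have hsub : (univ.filter (fun v => ∃ y, Adj s d v y)) ⊆ inr s d univ := by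
    intro x hx
    obtain ⟨-, y, hne, e', he'⟩ := mem_filter.1 hx
    refine mem_inr.2 ⟨⟨e', ?_, ?_⟩, fun _ _ _ => mem_univ _⟩
    · rcases he' with ⟨p, q⟩ | ⟨p, q⟩
      · rw [p, q]; exact hne
      · rw [p, q]; exact hne.symm
    · rcases he' with ⟨p, q⟩ | ⟨p, q⟩
      · exact Or.inl p
      · exact Or.inr q
  have := card_le_card hsub
  omega

end Pool.Agent.R15.BW18
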