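import Mathlib
import Pool.Agent.Y335.FL.Order
import Pool.Agent.Y335.FL.Iso
import Pool.Agent.Y335.FL.Ahl
import Pool.Agent.TH497.PW.Main

/-! # Nowhere-zero 5-flows in graphs of pathwidth at most twenty -/

set_option autoImplicit false
set_option linter.unusedSectionVars false

namespace Pool.Agent.R15.PW20

open Finset Pool.Agent.TH676.Z Pool.Agent.Y335.FL

/-- numerical consequence of the Moore bound for irregular graphs -/
theorem ex20 (V : Type) [Fintype V] [DecidableEq V] (G : SimpleGraph V)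
    [DecidableRel G.Adj] (hdeg : ∀ v, 2 ≤ G.degree v) (hg : Girth G.Adj 12)
    (hn : Fintype.card V ≤ 62) (hm : Fintype.card V + 11 ≤ G.edgeFinset.card)
    (hcon : 3 * Fintype.card V ≤ 2 * G.edgeFinset.card + 20) : False := by
  have hV : Nonempty V := by
    have h0 : 0 < G.edgeFinset.card := by omega
    obtain ⟨e, he⟩ := Finset.card_pos.1 h0
    exact ⟨e.out.1⟩
  have h1 := ahl V G hdeg hg
  have hnpos : 0 < Fintype.card V := Fintype.card_pos
  obtain ⟨n, hn'⟩ : ∃ n, n = Fintype.card V := ⟨_, rfl⟩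
  obtain ⟨m, hm'⟩ : ∃ m, m = G.edgeFinset.card := ⟨_, rfl⟩
  rw [← hn'] at h1 hn hm hcon hnpos
  rw [← hm'] at h1 hm hcon
  have hn0 : (0 : ℝ) < n := by exact_mod_cast hnpos
  have key : ∀ y : ℝ, 0 ≤ y → y * n ≤ 2 * m - n → 2 * ∑ i ∈ range 6, y ^ i ≤ n := by
    intro y hy hyn
    refine le_trans ?_ h1
    refine mul_le_mul_of_nonneg_left (Finset.sum_le_sum fun i _ => ?_) (by norm_num)
    refine pow_le_pow_left₀ hy ?_ i
    rw [le_sub_iff_add_le, le_div_iff₀ hn0]
    linarith
  have hm1 : (n : ℝ) + 11 ≤ m := by exact_mod_cast hm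
  have hm2 : 3 * (n : ℝ) ≤ 2 * m + 20 := by exact_mod_cast hcon
  rcases le_or_gt n 42 with h26 | h26
  · have h2 := key (1 + 22 / n) (by positivity) (by
      rw [add_mul, div_mul_cancel₀ _ hn0.ne']
      linarith)
    clear key h1 hn' hm' hm1 hm2 hcon hm hn hn0
    interval_cases n <;> norm_num [Finset.sum_range_succ] at h2
  · have h27 : (43 : ℝ) ≤ n := by exact_mod_cast h26
    have h2 := key (2 - 20 / n) (by
      rw [sub_nonneg, div_le_iff₀ hn0]
      linarith) (by
      rw [sub_mul, div_mul_cancel₀ _ hn0.ne']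
      linarith)
    clear key h1 hn' hm' hm1 hm2 hcon hm hn0 h27
    interval_cases n <;> norm_num [Finset.sum_range_succ] at h2

open IsoAux in
/-- a set of 42 vertices of degree at least three has at least 21 outer neighbours -/
theorem iso42 (V : Type) [Fintype V] [DecidableEq V] (G : SimpleGraph V)
    [DecidableRel G.Adj] (hg : Girth G.Adj 12) (U : Finset V) (hU : ∀ v ∈ U, 3 ≤ G.degree v)
    (h42 : U.card = 42) :
    21 ≤ (univ.filter (fun v => v ∉ U ∧ ∃ x ∈ U, G.Adj x v)).card := by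
  by_contra hcon
  rw [not_le] at hcon
  obtain ⟨N, hN⟩ : ∃ N : Finset V, N = univ.filter (fun v => v ∉ U ∧ ∃ x ∈ U, G.Adj x v) :=
    ⟨_, rfl⟩
  rw [← hN] at hcon
  have hNm : ∀ v, v ∈ N ↔ v ∉ U ∧ ∃ x ∈ U, G.Adj x v := by
    intro v
    rw [hN]
    simp
  have hdis : Disjoint U N := Finset.disjoint_left.2 fun v hv hvN => ((hNm v).1 hvN).1 hv
  have has : ∀ x y, ai G U x y = ai G U y x := by
    intro x y
    unfold ai
    exact if_congr (and_congr (G.adj_comm x y) or_comm) rfl rfl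
  have ha0 : ∀ x, ai G U x x = 0 := by
    intro x
    unfold ai
    rw [if_neg fun h => G.loopless.irrefl x h.1]
  obtain ⟨f, hf⟩ : ∃ f, f = ∑ v ∈ N, ∑ y ∈ U, ai G U v y := ⟨_, rfl⟩
  obtain ⟨s, hs⟩ : ∃ s, s = ∑ v ∈ U, ∑ y ∈ U, ai G U v y := ⟨_, rfl⟩
  have hf' : ∑ v ∈ U, ∑ y ∈ N, ai G U v y = f := by
    rw [hf, Finset.sum_comm]
    exact Finset.sum_congr rfl fun v _ => Finset.sum_congr rfl fun y _ => has _ _
  have hNN : ∀ v ∈ N, ∑ y ∈ N, ai G U v y = 0 := by
    intro v hv
    refine Finset.sum_eq_zero fun y hy => ?_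
    unfold ai
    rw [if_neg]
    rintro ⟨-, h | h⟩
    · exact ((hNm v).1 hv).1 h
    · exact ((hNm y).1 hy).1 h
  have hsplit : ∀ v, ∑ y ∈ U ∪ N, ai G U v y = ∑ y ∈ U, ai G U v y + ∑ y ∈ N, ai G U v y :=
    fun v => Finset.sum_union hdis
  have hD : Dg (ai G U) (U ∪ N) = s + 2 * f := by
    unfold Dg
    rw [Finset.sum_union hdis, Finset.sum_congr rfl fun v _ => hsplit v,
      Finset.sum_congr (s₁ := N) rfl fun v hv => (hsplit v).trans (by rw [hNN v hv, add_zero]),
      Finset.sum_add_distrib, hf', ← hs, ← hf]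
    ring
  -- degrees on `U`
  have hsf : 3 * U.card ≤ s + f := by
    have h1 : s + f = ∑ v ∈ U, ∑ y ∈ U ∪ N, ai G U v y := by
      rw [Finset.sum_congr rfl fun v _ => hsplit v, Finset.sum_add_distrib, hf', hs]
    rw [h1, mul_comm, ← smul_eq_mul, ← Finset.sum_const]
    refine Finset.sum_le_sum fun v hv => (hU v hv).trans ?_
    rw [← SimpleGraph.card_neighborFinset_eq_degree]
    have h2 : ∀ y ∈ U ∪ N, ai G U v y = if G.Adj v y then 1 else 0 := by
      intro y _
      unfold ai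
      simp [hv]
    rw [Finset.sum_congr rfl h2, ← Finset.card_filter]
    refine Finset.card_le_card fun y hy => ?_
    rw [SimpleGraph.mem_neighborFinset] at hy
    rw [Finset.mem_filter, Finset.mem_union]
    refine ⟨?_, hy⟩
    by_cases hyU : y ∈ U
    · exact Or.inl hyU
    · exact Or.inr ((hNm y).2 ⟨hyU, v, hv, hy⟩)
  have hone : ∀ v ∈ N, 1 ≤ ∑ y ∈ U, ai G U v y := by
    intro v hv
    obtain ⟨-, x, hx, hxv⟩ := (hNm v).1 hv
    have h1 : ai G U v x = 1 := by
      unfold ai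
      rw [if_pos ⟨hxv.symm, Or.inr hx⟩]
    rw [← h1]
    exact Finset.single_le_sum (f := fun y => ai G U v y) (fun _ _ => Nat.zero_le _) hx
  have hfN : N.card ≤ f := by
    rw [hf, Finset.card_eq_sum_ones]
    exact Finset.sum_le_sum hone
  have hcard : (U ∪ N).card = U.card + N.card := Finset.card_union_of_disjoint hdis
  have hc : 2 * (U ∪ N).card + 8 ≤ Dg (ai G U) (U ∪ N) := by omega
  obtain ⟨Y, hY1, hY2, hY3⟩ := core has ha0 _ (U ∪ N) rfl hc
  have h1 := Dg_GY G U Y
  have h2 : Fintype.card {x // x ∈ Y} = Y.card := Fintype.card_coe Y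
  obtain ⟨b, hb⟩ : ∃ b, b = (Y.filter (· ∈ N)).card := ⟨_, rfl⟩
  have h5 : Y.card ≤ U.card + b := by
    have h6 : Y ⊆ U ∪ Y.filter (· ∈ N) := by
      intro y hy
      rcases Finset.mem_union.1 (hY1 hy) with h | h
      · exact Finset.mem_union_left _ h
      · exact Finset.mem_union_right _ (Finset.mem_filter.2 ⟨hy, h⟩)
    rw [hb]
    exact (Finset.card_le_card h6).trans (Finset.card_union_le _ _)
  have hbN : b ≤ N.card := by
    rw [hb]
    refine Finset.card_le_card fun y hy => (Finset.mem_filter.1 hy).2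
  have h6 : N.card + b ≤ f := by
    have h7 : b = ∑ v ∈ N, if v ∈ Y then 1 else 0 := by
      rw [hb, ← Finset.card_filter]
      congr 1
      ext v
      simp only [Finset.mem_filter]
      exact and_comm
    rw [h7, Finset.card_eq_sum_ones, ← Finset.sum_add_distrib, hf]
    refine Finset.sum_le_sum fun v hv => ?_
    by_cases hvY : v ∈ Y
    · rw [if_pos hvY]
      refine (hY2 v hvY).trans ?_
      have h8 : ∑ z ∈ Y, ai G U v z ≤ ∑ z ∈ U ∪ N, ai G U v z :=
        Finset.sum_le_sum_of_subset hY1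
      rw [hsplit, hNN v hv, add_zero] at h8
      exact h8
    · rw [if_neg hvY, add_zero]
      exact hone v hv
  exact ex20 {x // x ∈ Y} (GY G U Y) (fun v => by
    rw [deg_GY]
    exact hY2 v.1 v.2) (girth_GY G U Y hg) (by omega) (by omega) (by omega)

/-- a final segment with a given number of elements -/
theorem seg {V : Type} [DecidableEq V] (S : Finset V) (rk : V → ℕ) : ∀ m ≤ S.card,
    ∃ U ⊆ S, U.card = m ∧ ∀ x ∈ S \ U, ∀ y ∈ U, rk x ≤ rk y := by
  intro m
  induction m with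
  | zero => exact fun _ => ⟨∅, empty_subset _, rfl, fun x _ y hy => absurd hy (notMem_empty _)⟩
  | succ m ih =>
    intro hm
    obtain ⟨U, hU, hc, h⟩ := ih (by omega)
    have hne : (S \ U).Nonempty := by
      rw [← card_pos, card_sdiff_of_subset hU]
      omega
    obtain ⟨z, hz, hmax⟩ := exists_max_image (S \ U) rk hne
    obtain ⟨hz1, hz2⟩ := mem_sdiff.1 hz
    refine ⟨insert z U, insert_subset hz1 hU, by rw [card_insert_of_notMem hz2, hc], ?_⟩
    intro x hx y hy
    have hx' : x ∈ S \ U := by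
      obtain ⟨h1, h2⟩ := mem_sdiff.1 hx
      exact mem_sdiff.2 ⟨h1, fun h3 => h2 (mem_insert_of_mem h3)⟩
    rcases mem_insert.1 hy with rfl | hy
    · exact hmax x hx'
    · exact h x hx' y hy

variable {V E : Type} [Fintype V] [DecidableEq V] [Fintype E] [DecidableEq E]

theorem mc_pd (w : ℕ) : MC (V := V) (E := E) (Pool.Agent.TH497.PW.HasPD w) :=
  ⟨fun src dst e h _ => Pool.Agent.TH497.PW.HasPD.loop src dst {e} h,
    fun src dst e h hne => Pool.Agent.TH497.PW.HasPD.contract src dst e h hne⟩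

theorem flow_pw (hg : St_girth12) {src dst : E → V} (h : Pool.Agent.TH497.PW.HasPD 21 src dst)
    (hb : Br src dst ∅ ∅) : FlowOn src dst ∅ ∅ := by
  classical
  by_contra hn
  obtain ⟨s, d, hs, hM⟩ := crit V E _ (mc_pd 21) src dst h hb hn
  obtain ⟨-, hT⟩ := gi_all V E s d hM
  have hG := hg V E s d hM
  have hsy : ∀ a b, Adj s d a b → Adj s d b a := fun a b h => ⟨h.1.symm, h.2.imp fun e he => he.symm⟩
  have hir : ∀ a, ¬ Adj s d a a := fun a h => h.1 rfl
  refine hM.nf (flow_of_loops fun e => ?_)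
  by_contra he
  have hadj : Adj s d (s e) (d e) := ⟨he, e, Or.inl ⟨rfl, rfl⟩⟩
  have h126 := moore V (Adj s d) hsy hir hG hT ⟨_, _, hadj⟩
  set G : SimpleGraph V := ⟨Adj s d, ⟨fun a b h => hsy a b h⟩, ⟨hir⟩⟩ with hGdef
  set S : Finset V := univ.filter (fun v => ∃ y, Adj s d v y) with hS
  obtain ⟨rk, hrk⟩ := hs.bound
  obtain ⟨U, hUS, hU42, hUmax⟩ := seg S rk 42 (by omega)
  have hdeg : ∀ v ∈ U, 3 ≤ G.degree v := by
    intro v hv
    obtain ⟨y, hy⟩ := (mem_filter.1 (hUS hv)).2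
    obtain ⟨a, b, c, ha, hb', hc, hab, hac, hbc⟩ := hT v y hy
    rw [← SimpleGraph.card_neighborFinset_eq_degree]
    have h4 : ({a, b, c} : Finset V) ⊆ G.neighborFinset v := by
      intro z hz
      simp only [mem_insert, mem_singleton] at hz
      rw [SimpleGraph.mem_neighborFinset]
      rcases hz with rfl | rfl | rfl
      · exact ha
      · exact hb'
      · exact hc
    calc 3 = ({a, b, c} : Finset V).card := by
          rw [card_insert_of_notMem (by simp [hab, hac]), card_pair hbc]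
      _ ≤ _ := card_le_card h4
  have h21 := iso42 V G hG U hdeg hU42
  -- the complement of `U`
  have hP := hrk (univ \ U) (by
    intro x hx hnx y hy hny
    have hxU : x ∉ U := (mem_sdiff.1 hx).2
    have hyU : y ∈ U := by
      by_contra hcon
      exact hy (mem_sdiff.2 ⟨mem_univ _, hcon⟩)
    have hxS : x ∈ S := by
      obtain ⟨e', he1, he2⟩ := hnx
      rw [hS, mem_filter]
      refine ⟨mem_univ _, ?_⟩
      rcases he2 with he2 | he2
      · exact ⟨d e', by rw [← he2]; exact he1, e', Or.inl ⟨he2, rfl⟩⟩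
      · exact ⟨s e', by rw [← he2]; exact he1.symm, e', Or.inr ⟨rfl, he2⟩⟩
    exact hUmax x (mem_sdiff.2 ⟨hxS, hxU⟩) y hyU)
  have hsub : (univ.filter (fun v => v ∉ U ∧ ∃ x ∈ U, G.Adj x v)) ⊆
      Pool.Agent.TH497.PW.bd s d (univ \ U) := by
    intro v hv
    obtain ⟨-, hvU, x, hxU, hne, e', he'⟩ := mem_filter.1 hv
    rw [Pool.Agent.TH497.PW.mem_bd]
    refine ⟨mem_sdiff.2 ⟨mem_univ _, hvU⟩, fun hc => ?_⟩
    rcases he' with ⟨h1, h2⟩ | ⟨h1, h2⟩
    · have := hc e' (by rw [h1, h2]; exact hne) (Or.inr h2)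
      exact (mem_sdiff.1 (h1 ▸ this.1)).2 hxU
    · have := hc e' (by rw [h1, h2]; exact hne.symm) (Or.inl h1)
      exact (mem_sdiff.1 (h2 ▸ this.2)).2 hxU
  have := card_le_card hsub
  omega

end Pool.Agent.R15.PW20
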