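import Mathlib
import Pool.Agent.Y335.FL.Order
import Pool.Agent.Y335.FL.Iso
import Pool.Agent.Y335.FL.Ahl
import Pool.Agent.Y335.FL.Ex17
import Pool.Agent.Y335.FL.Tw
import Pool.Agent.R15.PW20

/-! # Nowhere-zero 5-flows in graphs of treewidth at most eighteen -/

set_option autoImplicit false
set_option linter.unusedSectionVars false

namespace Pool.Agent.R15.TW18

open Finset Pool.Agent.TH676.Z Pool.Agent.Y335.FL

/-- numerical consequence of the Moore bound for irregular graphs -/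
theorem ex19 (V : Type) [Fintype V] [DecidableEq V] (G : SimpleGraph V)
    [DecidableRel G.Adj] (hdeg : ∀ v, 2 ≤ G.degree v) (hg : Girth G.Adj 12)
    (hn : Fintype.card V ≤ 72) (hm : 2 * Fintype.card V + 11 ≤ 2 * G.edgeFinset.card)
    (hcon : 3 * Fintype.card V ≤ 2 * G.edgeFinset.card + 19) : False := by
  have hV : Nonempty V := by
    have h0 : 0 < G.edgeFinset.card := by omega
    obtain ⟨e, he⟩ := Finset.card_pos.1 h0
    exact ⟨e.out.1⟩
  have h1 := ahl V G hdeg hg
  have hnpos : 0 < Fintype.card V := Fintype.card_pos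
  obtain ⟨n, hn'⟩ : ∃ n, n = Fintype.card V := ⟨_, rfl⟩
  obtain ⟨m, hm'⟩ : ∃ m, m = G.edgeFinset.card := ⟨_, rfl⟩
  rw [← hn'] at h1 hn hm hcon hnpos
  rw [← hm'] at h1 hm hcon
  have hn0 : (0 : ℝ) < n := by exact_mod_cast hnpos
  have key : ∀ y : ℝ, 0 ≤ y → y * n ≤ 2 * m - n → 2 * ∑ i ∈ range 6, y ^ i ≤ n := by
    intro y hy hyn
    refine le_trans ?_ h1
    refine mul_le_mul_of_nonneg_left (Finset.sum_le_sum fun i _ => ?_) (by norm_num)
    refine pow_le_pow_left₀ hy ?_ i
    rw [le_sub_iff_add_le, le_div_iff₀ hn0]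
    linarith
  rcases le_or_gt n 31 with h26 | h26
  · have hm1 : (n : ℝ) + 6 ≤ m := by
      have : n + 6 ≤ m := by omega
      exact_mod_cast this
    have h2 := key (1 + 12 / n) (by positivity) (by
      rw [add_mul, div_mul_cancel₀ _ hn0.ne']
      linarith)
    clear key h1 hn' hm' hm1 hcon hm hn hn0
    interval_cases n <;> norm_num [Finset.sum_range_succ] at h2
  · rcases Nat.even_or_odd' n with ⟨j, hj | hj⟩
    · have hm1 : 3 * (n : ℝ) ≤ 2 * m + 18 := by
        have : 3 * n ≤ 2 * m + 18 := by omega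
        exact_mod_cast this
      have h27 : (32 : ℝ) ≤ n := by exact_mod_cast h26
      have h2 := key (2 - 18 / n) (by
        rw [sub_nonneg, div_le_iff₀ hn0]
        linarith) (by
        rw [sub_mul, div_mul_cancel₀ _ hn0.ne']
        linarith)
      clear key h1 hn' hm' hm1 hcon hm hn0 h27
      have hj1 : 16 ≤ j := by omega
      have hj2 : j ≤ 36 := by omega
      subst hj
      clear h26 hn hnpos
      interval_cases j <;> norm_num [Finset.sum_range_succ] at h2
    · have hm1 : 3 * (n : ℝ) ≤ 2 * m + 19 := by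
        exact_mod_cast hcon
      have h27 : (32 : ℝ) ≤ n := by exact_mod_cast h26
      have h2 := key (2 - 19 / n) (by
        rw [sub_nonneg, div_le_iff₀ hn0]
        linarith) (by
        rw [sub_mul, div_mul_cancel₀ _ hn0.ne']
        linarith)
      clear key h1 hn' hm' hm1 hcon hm hn0 h27
      have hj1 : 16 ≤ j := by omega
      have hj2 : j ≤ 35 := by omega
      subst hj
      clear h26 hn hnpos
      interval_cases j <;> norm_num [Finset.sum_range_succ] at h2

open IsoAux in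
/-- outer neighbours -/
theorem isoGen (t : ℕ) (V : Type) [Fintype V] [DecidableEq V] (G : SimpleGraph V)
    [DecidableRel G.Adj] (hg : Girth G.Adj 12) (U : Finset V) (hU : ∀ v ∈ U, 3 ≤ G.degree v)
    (ht : t + 8 ≤ U.card)
    (hex : ∀ (V' : Type) [Fintype V'] [DecidableEq V'] (G' : SimpleGraph V')
      [DecidableRel G'.Adj], (∀ v, 2 ≤ G'.degree v) → Girth G'.Adj 12 →
      Fintype.card V' ≤ U.card + t → 2 * Fintype.card V' + U.card ≤ 2 * G'.edgeFinset.card + t →
      3 * Fintype.card V' ≤ 2 * G'.edgeFinset.card + t → False) :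
    t + 1 ≤ (univ.filter (fun v => v ∉ U ∧ ∃ x ∈ U, G.Adj x v)).card := by
  by_contra hcon
  rw [not_le] at hcon
  obtain ⟨N, hN⟩ : ∃ N : Finset V, N = univ.filter (fun v => v ∉ U ∧ ∃ x ∈ U, G.Adj x v) :=
    ⟨_, rfl⟩
  rw [← hN] at hcon
  have hNm : ∀ v, v ∈ N ↔ v ∉ U ∧ ∃ x ∈ U, G.Adj x v := by
    intro v
    rw [hN]
    simp
  have hdis : Disjoint U N := Finset.disjoint_left.2 fun v hv hvN => ((hNm v).1 hvN).1 hv
  have has : ∀ x y, ai G U x y = ai G U y x := by
    intro x y
    unfold ai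
    exact if_congr (and_congr (G.adj_comm x y) or_comm) rfl rfl
  have ha0 : ∀ x, ai G U x x = 0 := by
    intro x
    unfold ai
    rw [if_neg fun h => G.loopless.irrefl x h.1]
  obtain ⟨f, hf⟩ : ∃ f, f = ∑ v ∈ N, ∑ y ∈ U, ai G U v y := ⟨_, rfl⟩
  obtain ⟨s, hs⟩ : ∃ s, s = ∑ v ∈ U, ∑ y ∈ U, ai G U v y := ⟨_, rfl⟩
  have hf' : ∑ v ∈ U, ∑ y ∈ N, ai G U v y = f := by
    rw [hf, Finset.sum_comm]
    exact Finset.sum_congr rfl fun v _ => Finset.sum_congr rfl fun y _ => has _ _
  have hNN : ∀ v ∈ N, ∑ y ∈ N, ai G U v y = 0 := by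
    intro v hv
    refine Finset.sum_eq_zero fun y hy => ?_
    unfold ai
    rw [if_neg]
    rintro ⟨-, h | h⟩
    · exact ((hNm v).1 hv).1 h
    · exact ((hNm y).1 hy).1 h
  have hsplit : ∀ v, ∑ y ∈ U ∪ N, ai G U v y = ∑ y ∈ U, ai G U v y + ∑ y ∈ N, ai G U v y :=
    fun v => Finset.sum_union hdis
  have hD : Dg (ai G U) (U ∪ N) = s + 2 * f := by
    unfold Dg
    rw [Finset.sum_union hdis, Finset.sum_congr rfl fun v _ => hsplit v,
      Finset.sum_congr (s₁ := N) rfl fun v hv => (hsplit v).trans (by rw [hNN v hv, add_zero]),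
      Finset.sum_add_distrib, hf', ← hs, ← hf]
    ring
  -- degrees on `U`
  have hsf : 3 * U.card ≤ s + f := by
    have h1 : s + f = ∑ v ∈ U, ∑ y ∈ U ∪ N, ai G U v y := by
      rw [Finset.sum_congr rfl fun v _ => hsplit v, Finset.sum_add_distrib, hf', hs]
    rw [h1, mul_comm, ← smul_eq_mul, ← Finset.sum_const]
    refine Finset.sum_le_sum fun v hv => (hU v hv).trans ?_
    rw [← SimpleGraph.card_neighborFinset_eq_degree]
    have h2 : ∀ y ∈ U ∪ N, ai G U v y = if G.Adj v y then 1 else 0 := by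
      intro y _
      unfold ai
      simp [hv]
    rw [Finset.sum_congr rfl h2, ← Finset.card_filter]
    refine Finset.card_le_card fun y hy => ?_
    rw [SimpleGraph.mem_neighborFinset] at hy
    rw [Finset.mem_filter, Finset.mem_union]
    refine ⟨?_, hy⟩
    by_cases hyU : y ∈ U
    · exact Or.inl hyU
    · exact Or.inr ((hNm y).2 ⟨hyU, v, hv, hy⟩)
  have hone : ∀ v ∈ N, 1 ≤ ∑ y ∈ U, ai G U v y := by
    intro v hv
    obtain ⟨-, x, hx, hxv⟩ := (hNm v).1 hv
    have h1 : ai G U v x = 1 := by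
      unfold ai
      rw [if_pos ⟨hxv.symm, Or.inr hx⟩]
    rw [← h1]
    exact Finset.single_le_sum (f := fun y => ai G U v y) (fun _ _ => Nat.zero_le _) hx
  have hfN : N.card ≤ f := by
    rw [hf, Finset.card_eq_sum_ones]
    exact Finset.sum_le_sum hone
  have hcard : (U ∪ N).card = U.card + N.card := Finset.card_union_of_disjoint hdis
  have hc : 2 * (U ∪ N).card + 8 ≤ Dg (ai G U) (U ∪ N) := by omega
  obtain ⟨Y, hY1, hY2, hY3⟩ := core has ha0 _ (U ∪ N) rfl hc
  have h1 := Dg_GY G U Y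
  have h2 : Fintype.card {x // x ∈ Y} = Y.card := Fintype.card_coe Y
  obtain ⟨b, hb⟩ : ∃ b, b = (Y.filter (· ∈ N)).card := ⟨_, rfl⟩
  have h5 : Y.card ≤ U.card + b := by
    have h6 : Y ⊆ U ∪ Y.filter (· ∈ N) := by
      intro y hy
      rcases Finset.mem_union.1 (hY1 hy) with h | h
      · exact Finset.mem_union_left _ h
      · exact Finset.mem_union_right _ (Finset.mem_filter.2 ⟨hy, h⟩)
    rw [hb]
    exact (Finset.card_le_card h6).trans (Finset.card_union_le _ _)
  have hbN : b ≤ N.card := by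
    rw [hb]
    refine Finset.card_le_card fun y hy => (Finset.mem_filter.1 hy).2
  have h6 : N.card + b ≤ f := by
    have h7 : b = ∑ v ∈ N, if v ∈ Y then 1 else 0 := by
      rw [hb, ← Finset.card_filter]
      congr 1
      ext v
      simp only [Finset.mem_filter]
      exact and_comm
    rw [h7, Finset.card_eq_sum_ones, ← Finset.sum_add_distrib, hf]
    refine Finset.sum_le_sum fun v hv => ?_
    by_cases hvY : v ∈ Y
    · rw [if_pos hvY]
      refine (hY2 v hvY).trans ?_
      have h8 : ∑ z ∈ Y, ai G U v z ≤ ∑ z ∈ U ∪ N, ai G U v z :=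
        Finset.sum_le_sum_of_subset hY1
      rw [hsplit, hNN v hv, add_zero] at h8
      exact h8
    · rw [if_neg hvY, add_zero]
      exact hone v hv
  exact hex {x // x ∈ Y} (GY G U Y) (fun v => by
    rw [deg_GY]
    exact hY2 v.1 v.2) (girth_GY G U Y hg) (by omega) (by omega) (by omega)


/-- sets of 30 to 53 vertices of degree at least three have at least 20 outer neighbours -/
theorem iso20 (V : Type) [Fintype V] [DecidableEq V] (G : SimpleGraph V)
    [DecidableRel G.Adj] (hg : Girth G.Adj 12) (U : Finset V) (hU : ∀ v ∈ U, 3 ≤ G.degree v)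
    (h30 : 30 ≤ U.card) (h53 : U.card ≤ 53) :
    20 ≤ (univ.filter (fun v => v ∉ U ∧ ∃ x ∈ U, G.Adj x v)).card :=
  isoGen 19 V G hg U hU (by omega) (fun V' _ _ G' _ h1 h2 h3 h4 h5 =>
    ex19 V' G' h1 h2 (by omega) (by omega) (by omega))

namespace Tw

section

variable {V : Type} [Fintype V] [DecidableEq V]

open Pool.Agent.Y335.FL.Tw (Iv Gr)

open Classical in
/-- the isoperimetric inequality for the relation -/
theorem isoA {Ad : V → V → Prop} (hs : ∀ a b, Ad a b → Ad b a)
    (hi : ∀ a, ¬ Ad a a) (hg : Girth Ad 12) (h3 : Three Ad) {Q W : Finset V}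
    (hQ : ∀ z ∈ Q, ∃ y, Ad z y) (hW : W.card ≤ 18)
    (hout : ∀ x ∈ Q, ∀ v, Ad x v → v ∉ Q → v ∈ W) (h1 : 25 ≤ Q.card) (h2 : Q.card ≤ 48) :
    False := by
  have h4 := iso (ex17 ahl) V (Gr Ad hs hi) hg Q (by
    intro v hv
    obtain ⟨y, hy⟩ := hQ v hv
    obtain ⟨a, b, c, ha, hb, hc, hab, hac, hbc⟩ := h3 v y hy
    rw [← SimpleGraph.card_neighborFinset_eq_degree]
    have hsub : ({a, b, c} : Finset V) ⊆ (Gr Ad hs hi).neighborFinset v := by
      intro w hw
      rw [SimpleGraph.mem_neighborFinset]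
      simp only [mem_insert, mem_singleton] at hw
      rcases hw with rfl | rfl | rfl
      · exact ha
      · exact hb
      · exact hc
    have h5 := card_le_card hsub
    rwa [card_eq_three.2 ⟨a, b, c, hab, hac, hbc, rfl⟩] at h5) h1 h2
  have h5 : (univ.filter (fun v => v ∉ Q ∧ ∃ x ∈ Q, (Gr Ad hs hi).Adj x v)) ⊆ W := by
    intro v hv
    rw [mem_filter] at hv
    obtain ⟨-, hvQ, x, hx, hxv⟩ := hv
    exact hout x hx v hxv hvQ
  have h6 := card_le_card h5
  omega


open Classical in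
/-- the isoperimetric inequality for the relation -/
theorem isoB {Ad : V → V → Prop} (hs : ∀ a b, Ad a b → Ad b a)
    (hi : ∀ a, ¬ Ad a a) (hg : Girth Ad 12) (h3 : Three Ad) {Q W : Finset V}
    (hQ : ∀ z ∈ Q, ∃ y, Ad z y) (hW : W.card ≤ 19)
    (hout : ∀ x ∈ Q, ∀ v, Ad x v → v ∉ Q → v ∈ W) (h1 : 30 ≤ Q.card) (h2 : Q.card ≤ 53) :
    False := by
  have h4 := iso20 V (Gr Ad hs hi) hg Q (by
    intro v hv
    obtain ⟨y, hy⟩ := hQ v hv
    obtain ⟨a, b, c, ha, hb, hc, hab, hac, hbc⟩ := h3 v y hy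
    rw [← SimpleGraph.card_neighborFinset_eq_degree]
    have hsub : ({a, b, c} : Finset V) ⊆ (Gr Ad hs hi).neighborFinset v := by
      intro w hw
      rw [SimpleGraph.mem_neighborFinset]
      simp only [mem_insert, mem_singleton] at hw
      rcases hw with rfl | rfl | rfl
      · exact ha
      · exact hb
      · exact hc
    have h5 := card_le_card hsub
    rwa [card_eq_three.2 ⟨a, b, c, hab, hac, hbc, rfl⟩] at h5) h1 h2
  have h5 : (univ.filter (fun v => v ∉ Q ∧ ∃ x ∈ Q, (Gr Ad hs hi).Adj x v)) ⊆ W := by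
    intro v hv
    rw [mem_filter] at hv
    obtain ⟨-, hvQ, x, hx, hxv⟩ := hv
    exact hout x hx v hxv hvQ
  have h6 := card_le_card h5
  omega


/-- the elimination step -/
theorem step {Ad : V → V → Prop} {In : Finset V → Prop}
    (hs : ∀ a b, Ad a b → Ad b a)
    (hi : ∀ a, ¬ Ad a a) (hg : Girth Ad 12) (h3 : Three Ad) (hB : Bags Ad 19 In)
    {U W : Finset V} {r : V} (hW : In W) (hrW : r ∈ W)
    (hel : ∀ Z, In Z → Z ⊆ U → r ∈ Z → Z ⊆ W) (hrU : r ∈ U) (hrn : ∃ y, Ad r y)
    (hI : Iv Ad In U) : Iv Ad In (U.erase r) := by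
  classical
  have hW18 : W.card ≤ 19 := hB.card W hW
  -- the pieces next to `r`
  obtain ⟨F, hF⟩ : ∃ F : Finset (Finset V), F = univ.filter (fun P => Pc Ad In U P ∧
    P.card ≤ 24 ∧ (∀ z ∈ P, ∃ y, Ad z y) ∧ ∃ y ∈ P, Ad r y) := ⟨_, rfl⟩
  have hFm : ∀ P, P ∈ F ↔ Pc Ad In U P ∧ P.card ≤ 24 ∧ (∀ z ∈ P, ∃ y, Ad z y) ∧
      ∃ y ∈ P, Ad r y := by
    intro P
    rw [hF, mem_filter]
    simp
  have honb : ∀ P ∈ F, ∀ x ∈ P, ∀ v, Ad x v → v ∈ U → v ∈ W := by
    intro P hP x hx v hxv hvU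
    obtain ⟨h1, -, -, y, hy, hry⟩ := (hFm P).1 hP
    have h2 := hel (onb Ad U P) h1.inn (by
      intro z hz
      unfold onb at hz
      rw [mem_filter] at hz
      exact hz.2.1) (by
      unfold onb
      rw [mem_filter]
      exact ⟨mem_univ _, hrU, y, hy, hs _ _ hry⟩)
    apply h2
    unfold onb
    rw [mem_filter]
    exact ⟨mem_univ _, hvU, x, hx, hxv⟩
  -- unions of pieces are small
  have hsmall : ∀ S : Finset (Finset V), S ⊆ F → (S.biUnion id).card ≤ 29 := by
    intro S
    induction S using Finset.induction_on with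
    | empty => intro _; simp
    | insert P S hPS ih =>
      intro hsub
      have hP : P ∈ F := hsub (mem_insert_self _ _)
      have h1 := ih ((subset_insert _ _).trans hsub)
      have h2 : ((insert P S).biUnion id).card ≤ 53 := by
        rw [biUnion_insert]
        have := card_union_le (id P) (S.biUnion id)
        have h4 := ((hFm P).1 hP).2.1
        simp only [id] at this ⊢
        omega
      by_contra hcon
      push Not at hcon
      refine isoB hs hi hg h3 (Q := (insert P S).biUnion id) (W := W) ?_ hW18 ?_ (by omega) h2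
      · intro z hz
        rw [mem_biUnion] at hz
        obtain ⟨P', hP', hz⟩ := hz
        exact ((hFm P').1 (hsub hP')).2.2.1 z hz
      · intro x hx v hxv hv
        rw [mem_biUnion] at hx
        obtain ⟨P', hP', hx⟩ := hx
        have hP'F := hsub hP'
        rcases ((hFm P').1 hP'F).1.cl x hx v hxv with h4 | h4
        · exact absurd (mem_biUnion.2 ⟨P', hP', h4⟩) hv
        · exact honb P' hP'F x hx v hxv h4
  obtain ⟨Q, hQ⟩ : ∃ Q : Finset V, Q = F.biUnion id := ⟨_, rfl⟩
  have hQc : Q.card ≤ 29 := by rw [hQ]; exact hsmall F (Subset.refl _)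
  have hQm : ∀ x, x ∈ Q ↔ ∃ P ∈ F, x ∈ P := by
    intro x
    rw [hQ, mem_biUnion]
    simp
  -- neighbours of `insert r Q`
  have hcl : ∀ x ∈ insert r Q, ∀ v, Ad x v → v ∈ insert r Q ∨ (v ∈ U.erase r ∧ v ∈ W) := by
    intro x hx v hxv
    by_cases hvr : v = r
    · left
      rw [hvr]
      exact mem_insert_self _ _
    rw [mem_insert] at hx
    rcases hx with rfl | hx
    · by_cases hvU : v ∈ U
      · right
        refine ⟨mem_erase.2 ⟨hvr, hvU⟩, ?_⟩
        have h1 := hel {x, v} (hB.edge _ _ hxv) (by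
          intro z hz
          rw [mem_insert, mem_singleton] at hz
          rcases hz with rfl | rfl
          · exact hrU
          · exact hvU) (by simp)
        exact h1 (by simp)
      · left
        obtain ⟨P, hvP, hP1, hP2, hP3⟩ := hI v hvU ⟨x, hs _ _ hxv⟩
        exact mem_insert_of_mem ((hQm v).2 ⟨P, (hFm P).2 ⟨hP1, hP2, hP3, v, hvP, hxv⟩, hvP⟩)
    · obtain ⟨P, hP, hxP⟩ := (hQm x).1 hx
      rcases ((hFm P).1 hP).1.cl x hxP v hxv with h4 | h4
      · left
        exact mem_insert_of_mem ((hQm v).2 ⟨P, hP, h4⟩)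
      · right
        exact ⟨mem_erase.2 ⟨hvr, h4⟩, honb P hP x hxP v hxv h4⟩
  have hnb : ∀ z ∈ insert r Q, ∃ y, Ad z y := by
    intro z hz
    rw [mem_insert] at hz
    rcases hz with rfl | hz
    · exact hrn
    · obtain ⟨P, hP, hzP⟩ := (hQm z).1 hz
      exact ((hFm P).1 hP).2.2.1 z hzP
  have hcard : (insert r Q).card ≤ 24 := by
    by_contra hcon
    push Not at hcon
    have h1 := card_insert_le r Q
    refine isoA hs hi hg h3 (Q := insert r Q) (W := W.erase r) hnb
      (by rw [card_erase_of_mem hrW]; omega) ?_ (by omega) (by omega)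
    intro x hx v hxv hv
    rcases hcl x hx v hxv with h4 | h4
    · exact absurd h4 hv
    · exact mem_erase.2 ⟨(mem_erase.1 h4.1).1, h4.2⟩
  have hPc : Pc Ad In (U.erase r) (insert r Q) := by
    refine ⟨?_, ?_, ?_⟩
    · intro x hx
      rw [mem_insert] at hx
      rcases hx with rfl | hx
      · simp
      · obtain ⟨P, hP, hxP⟩ := (hQm x).1 hx
        intro h4
        exact ((hFm P).1 hP).1.out x hxP (mem_of_mem_erase h4)
    · intro x hx y hxy
      rcases hcl x hx y hxy with h4 | h4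
      · exact Or.inl h4
      · exact Or.inr h4.1
    · refine hB.mono _ W ?_ hW
      intro v hv
      unfold onb at hv
      rw [mem_filter] at hv
      obtain ⟨-, hvU, x, hx, hxv⟩ := hv
      rcases hcl x hx v hxv with h4 | h4
      · exfalso
        rw [mem_insert] at h4
        rcases h4 with rfl | h4
        · simp at hvU
        · obtain ⟨P, hP, hxP⟩ := (hQm v).1 h4
          exact ((hFm P).1 hP).1.out v hxP (mem_of_mem_erase hvU)
      · exact h4.2
  intro x hx hxn
  by_cases hxr : x = r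
  · exact ⟨insert r Q, by rw [hxr]; exact mem_insert_self _ _, hPc, hcard, hnb⟩
  · have hxU : x ∉ U := fun h4 => hx (mem_erase.2 ⟨hxr, h4⟩)
    obtain ⟨P, hxP, hP1, hP2, hP3⟩ := hI x hxU hxn
    by_cases ha : ∃ y ∈ P, Ad r y
    · exact ⟨insert r Q, mem_insert_of_mem ((hQm x).2 ⟨P, (hFm P).2 ⟨hP1, hP2, hP3, ha⟩, hxP⟩),
        hPc, hcard, hnb⟩
    · push Not at ha
      refine ⟨P, hxP, ⟨fun z hz h4 => hP1.out z hz (mem_of_mem_erase h4), ?_, ?_⟩, hP2, hP3⟩
      · intro z hz y hzy
        rcases hP1.cl z hz y hzy with h4 | h4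
        · exact Or.inl h4
        · refine Or.inr (mem_erase.2 ⟨?_, h4⟩)
          rintro rfl
          exact ha z hz (hs _ _ hzy)
      · refine hB.mono _ _ ?_ hP1.inn
        intro v hv
        unfold onb at hv ⊢
        rw [mem_filter] at hv ⊢
        exact ⟨hv.1, mem_of_mem_erase hv.2.1, hv.2.2⟩


end

end Tw

theorem tw18 (V : Type) [Fintype V] [DecidableEq V] (Ad : V → V → Prop)
    (In : Finset V → Prop) (hs : ∀ a b, Ad a b → Ad b a) (hi : ∀ a, ¬ Ad a a) (hg : Girth Ad 12)
    (h3 : Three Ad) (hB : Bags Ad 19 In) : ∀ x y, ¬ Ad x y := by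
  have main : ∀ n : ℕ, ∀ U : Finset V, U.card = n → (∀ x ∈ U, ∃ y, Ad x y) → Pool.Agent.Y335.FL.Tw.Iv Ad In U →
      Pool.Agent.Y335.FL.Tw.Iv Ad In ∅ := by
    intro n
    induction n with
    | zero =>
      intro U hU _ hinv
      rw [Finset.card_eq_zero] at hU
      rw [← hU]
      exact hinv
    | succ n ih =>
      intro U hU hin hinv
      have hne : U.Nonempty := Finset.card_pos.1 (by omega)
      obtain ⟨r, hr, W, hW, hrW, hZ⟩ := hB.elim U hne (fun x hx => by
        obtain ⟨y, hy⟩ := hin x hx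
        exact hB.mono {x} {x, y} (by simp) (hB.edge x y hy))
      refine ih (U.erase r) ?_ ?_ ?_
      · rw [Finset.card_erase_of_mem hr]
        omega
      · intro x hx
        exact hin x (Finset.mem_of_mem_erase hx)
      · exact Pool.Agent.R15.TW18.Tw.step hs hi hg h3 hB hW hrW hZ hr (hin r hr) hinv
  classical
  refine Pool.Agent.Y335.FL.Tw.final moore hs hi hg h3
    (main _ (univ.filter (fun x => ∃ y, Ad x y)) rfl ?_ ?_)
  · intro x hx
    rw [Finset.mem_filter] at hx
    exact hx.2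
  · intro x hx hy
    exact absurd (Finset.mem_filter.2 ⟨Finset.mem_univ x, hy⟩) hx


variable {V E : Type} [Fintype V] [DecidableEq V] [Fintype E] [DecidableEq E]

open Pool.Agent.TH497.TW in
theorem flow_tw (hg : St_girth12) {src dst : E → V} (h : HasTD 19 src dst)
    (hb : Br src dst ∅ ∅) : FlowOn src dst ∅ ∅ := by
  by_contra hn
  obtain ⟨s, d, hs, hM⟩ := crit V E (HasTD 19) (Pool.Agent.TH676.Z.mc 19) src dst h hb hn
  obtain ⟨-, hT⟩ := gi_all V E s d hM
  have hG := hg V E s d hM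
  obtain ⟨In, hB⟩ := bags hs
  have hno := tw18 V (Adj s d) In
    (fun a b h => ⟨h.1.symm, h.2.imp fun e he => he.symm⟩) (fun a h => h.1 rfl) hG hT hB
  refine hM.nf (flow_of_loops fun e => ?_)
  by_contra he
  exact hno (s e) (d e) ⟨he, e, Or.inl ⟨rfl, rfl⟩⟩

end Pool.Agent.R15.TW18
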