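import Mathlib

set_option autoImplicit false

/-!
# Digraphs of large minimum out-degree in which complete levelled digraphs cannot be avoided

`core`: for all `t`, `H` there is `k` (namely `t + 2`) such that for every `d` there is a finite
digraph of minimum out-degree at least `d` such that every non-empty subdigraph of minimum
out-degree at least `k` contains disjoint sets `C 0, ..., C H` of at least `t` vertices with all
arcs from `C (l + 1)` to `C l`.
-/

namespace Pool.Agent.R15.Avoid

open Finset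

/-- `T` is the top set of a chain of `l + 1` sets, each lower one having at least `k` elements,
with all arcs from each set to the next one present in `E`. -/
def Chain {V : Type} (k : ℕ) (E : V → V → Prop) : ℕ → Finset V → Prop
  | 0, _ => True
  | l + 1, T => ∃ C : Finset V, k ≤ C.card ∧ (∀ u ∈ T, ∀ v ∈ C, E u v) ∧ Chain k E l C

theorem Chain.mono {V : Type} {k : ℕ} {E : V → V → Prop} : ∀ (l : ℕ) {T T' : Finset V},
    Chain k E l T → T' ⊆ T → Chain k E l T' := by
  intro l
  cases l with
  | zero => intro T T' _ _; trivial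
  | succ l =>
    rintro T T' ⟨C, h1, h2, h3⟩ hT
    exact ⟨C, h1, fun u hu v hv => h2 u (hT hu) v hv, h3⟩

theorem Chain.map {V V' : Type} {k : ℕ} (f : V ↪ V') {E : V → V → Prop} {E' : V' → V' → Prop}
    (hE : ∀ u v, E u v → E' (f u) (f v)) : ∀ (l : ℕ) {T : Finset V},
    Chain k E l T → Chain k E' l (T.map f) := by
  intro l
  induction l with
  | zero => intro T _; trivial
  | succ l ih =>
    rintro T ⟨C, h1, h2, h3⟩
    refine ⟨C.map f, by rwa [card_map], ?_, ih h3⟩
    intro u hu v hv
    obtain ⟨u', hu', rfl⟩ := mem_map.1 hu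
    obtain ⟨v', hv', rfl⟩ := mem_map.1 hv
    exact hE _ _ (h2 u' hu' v' hv')

/-- The sets of a chain. -/
theorem Chain.sets {V : Type} {k : ℕ} {E : V → V → Prop} : ∀ (l : ℕ) {T : Finset V},
    Chain k E l T → ∃ C : ℕ → Finset V, C l = T ∧ (∀ i, i < l → k ≤ (C i).card) ∧
      ∀ i, i < l → ∀ u ∈ C (i + 1), ∀ v ∈ C i, E u v := by
  intro l
  induction l with
  | zero => intro T _; exact ⟨fun _ => T, rfl, fun i hi => absurd hi (by omega),
      fun i hi => absurd hi (by omega)⟩
  | succ l ih =>
    rintro T ⟨C₀, h1, h2, h3⟩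
    obtain ⟨C, hC, hC1, hC2⟩ := ih h3
    refine ⟨fun i => if i = l + 1 then T else C i, by simp, ?_, ?_⟩
    · intro i hi
      have : i ≠ l + 1 := by omega
      simp only [this, if_false]
      by_cases hil : i = l
      · rw [hil, hC]; exact h1
      · exact hC1 i (by omega)
    · intro i hi u hu v hv
      have hne : i ≠ l + 1 := by omega
      simp only [hne, if_false] at hv
      by_cases hil : i = l
      · subst hil
        simp only [if_true] at hu
        rw [hC] at hv
        exact h2 u hu v hv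
      · have h5 : i + 1 ≠ l + 1 := by omega
        simp only [h5, if_false] at hu
        exact hC2 i (by omega) u hu v hv

/-- The layered digraphs. -/
theorem layered (k d r : ℕ) (hk : 1 ≤ k) (hd : 1 ≤ d) (j : ℕ) :
    ∃ (V : Type) (_ : Fintype V) (R : V → V → Prop) (lev : V → ℕ),
      (∀ u v, R u v → lev u = lev v + 1) ∧ (∀ u, lev u ≤ j) ∧
      (∀ u, 0 < lev u → d ≤ {v | R u v}.ncard) ∧
      ∀ (ι : Type) [Fintype ι], Fintype.card ι ≤ r →
        ∀ (U : ι → Set V) (E : ι → V → V → Prop),
          (∀ i u v, E i u v → R u v ∧ u ∈ U i ∧ v ∈ U i) →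
          (∀ i, ∀ u ∈ U i, 0 < lev u → k ≤ {v | E i u v}.ncard) →
          ∃ T : Finset V, d ≤ T.card ∧ (∀ u ∈ T, lev u = j) ∧
            ∃ I : Set ι, (∀ u ∈ T, ∀ i, u ∈ U i ↔ i ∈ I) ∧ ∀ i ∈ I, Chain k (E i) j T := by
  classical
  induction j with
  | zero =>
    refine ⟨Fin (2 ^ r * d), inferInstance, fun _ _ => False, fun _ => 0, ?_, ?_, ?_, ?_⟩
    · intro u v h; exact h.elim
    · intro u; exact le_rfl
    · intro u hu; exact absurd hu (lt_irrefl _)
    · intro ι _ hι U E hE1 hE2
      have hc : Fintype.card (Set ι) * d ≤ Fintype.card (Fin (2 ^ r * d)) := by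
        rw [Fintype.card_fin, Fintype.card_set]
        exact Nat.mul_le_mul_right _ (Nat.pow_le_pow_right (by norm_num) hι)
      obtain ⟨I, hI⟩ := Fintype.exists_le_card_fiber_of_mul_le_card
        (fun u : Fin (2 ^ r * d) => {i | u ∈ U i}) hc
      refine ⟨_, hI, fun u _ => rfl, I, ?_, fun i _ => trivial⟩
      intro u hu i
      have := (mem_filter.1 hu).2
      rw [← this]
      rfl
  | succ j ih =>
    obtain ⟨V, _, R, lev, hR1, hR2, hR3, hR4⟩ := ih
    obtain ⟨N, hN⟩ : ∃ N : ℕ, N = (2 ^ Fintype.card (V) * 2) ^ r * d := ⟨_, rfl⟩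
    let V' : Type := V ⊕ ({s : Finset V // d ≤ s.card ∧ ∀ v ∈ s, lev v = j} × Fin N)
    let R' : V' → V' → Prop := fun a b => match a, b with
      | Sum.inl u, Sum.inl v => R u v
      | Sum.inl _, Sum.inr _ => False
      | Sum.inr s, Sum.inl v => v ∈ s.1.1
      | Sum.inr _, Sum.inr _ => False
    let lev' : V' → ℕ := fun a => match a with
      | Sum.inl u => lev u
      | Sum.inr _ => j + 1
    refine ⟨V', inferInstance, R', lev', ?_, ?_, ?_, ?_⟩
    · rintro (u | s) (v | s') h
      · exact hR1 u v h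
      · exact h.elim
      · have := s.1.2.2 v h
        show j + 1 = lev v + 1
        rw [this]
      · exact h.elim
    · rintro (u | s)
      · exact (hR2 u).trans (Nat.le_succ _)
      · exact le_rfl
    · rintro (u | s) h
      · refine (hR3 u h).trans ?_
        have : (Sum.inl '' {v | R u v} : Set V') ⊆ {v | R' (Sum.inl u) v} := by
          rintro _ ⟨v, hv, rfl⟩
          exact hv
        calc {v | R u v}.ncard = (Sum.inl '' {v | R u v} : Set V').ncard :=
              (Set.ncard_image_of_injective _ Sum.inl_injective).symm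
          _ ≤ _ := Set.ncard_le_ncard this (Set.toFinite _)
      · refine s.1.2.1.trans ?_
        have : (Sum.inl '' (s.1.1 : Set V) : Set V') ⊆ {v | R' (Sum.inr s) v} := by
          rintro _ ⟨v, hv, rfl⟩
          exact hv
        calc s.1.1.card = (s.1.1 : Set V).ncard := (Set.ncard_coe_finset _).symm
          _ = (Sum.inl '' (s.1.1 : Set V) : Set V').ncard :=
              (Set.ncard_image_of_injective _ Sum.inl_injective).symm
          _ ≤ _ := Set.ncard_le_ncard this (Set.toFinite _)
    · intro ι _ hι U E hE1 hE2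
      -- restriction to the lower levels
      obtain ⟨T, hT1, hT2, I, hI1, hI2⟩ := hR4 ι hι (fun i => {u | Sum.inl u ∈ U i})
        (fun i u v => E i (Sum.inl u) (Sum.inl v))
        (fun i u v h => hE1 i _ _ h)
        (by
          intro i u hu hlev
          refine (hE2 i (Sum.inl u) hu hlev).trans ?_
          have hsub : {v | E i (Sum.inl u) v} ⊆
              (Sum.inl '' {v | E i (Sum.inl u) (Sum.inl v)} : Set V') := by
            rintro (v | s) hv
            · exact ⟨v, hv, rfl⟩
            · exact ((hE1 i _ _ hv).1 : False).elim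
          calc _ ≤ (Sum.inl '' {v | E i (Sum.inl u) (Sum.inl v)} : Set V').ncard :=
                Set.ncard_le_ncard hsub (Set.toFinite _)
            _ = _ := Set.ncard_image_of_injective _ Sum.inl_injective)
      let s₀ : {s : Finset V // d ≤ s.card ∧ ∀ v ∈ s, lev v = j} := ⟨T, hT1, hT2⟩
      -- pigeonhole on the copies
      have hc : Fintype.card (ι → Set V × Prop) * d ≤ Fintype.card (Fin N) := by
        rw [Fintype.card_fin, hN, Fintype.card_fun, Fintype.card_prod, Fintype.card_set,
          Fintype.card_prop]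
        exact Nat.mul_le_mul_right _ (Nat.pow_le_pow_right (by positivity) hι)
      obtain ⟨τ, hτ⟩ := Fintype.exists_le_card_fiber_of_mul_le_card
        (fun a : Fin N => fun i : ι => (({v | E i (Sum.inr (s₀, a)) (Sum.inl v)} : Set V),
          ((Sum.inr (s₀, a) : V') ∈ U i))) hc
      have hemb : Function.Injective (fun a : Fin N => (Sum.inr (s₀, a) : V')) := by
        intro a b hab
        have := Sum.inr_injective hab
        exact (Prod.mk.inj this).2
      obtain ⟨F, hF⟩ : ∃ F : Finset (Fin N), F = (Finset.univ.filter fun a =>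
          (fun i : ι => (({v | E i (Sum.inr (s₀, a)) (Sum.inl v)} : Set V),
          ((Sum.inr (s₀, a) : V') ∈ U i))) = τ) := ⟨_, rfl⟩
      rw [← hF] at hτ
      have hFmem : ∀ a ∈ F, ∀ i, {v | E i (Sum.inr (s₀, a)) (Sum.inl v)} = (τ i).1 ∧
          ((Sum.inr (s₀, a) : V') ∈ U i ↔ (τ i).2) := by
        intro a ha i
        rw [hF, mem_filter] at ha
        have h1 := congrFun ha.2 i
        refine ⟨congrArg Prod.fst h1, ?_⟩
        have h2 := congrArg Prod.snd h1
        exact iff_of_eq h2
      refine ⟨F.map ⟨_, hemb⟩, by rwa [card_map], ?_, {i | (τ i).2}, ?_, ?_⟩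
      · intro u hu
        obtain ⟨a, _, rfl⟩ := mem_map.1 hu
        rfl
      · intro u hu i
        obtain ⟨a, ha, rfl⟩ := mem_map.1 hu
        exact (hFmem a ha i).2
      · intro i hi
        obtain ⟨a, ha⟩ : F.Nonempty := by
          rw [← Finset.card_pos]; omega
        have haU : (Sum.inr (s₀, a) : V') ∈ U i := (hFmem a ha i).2.2 hi
        have hset : {v | E i (Sum.inr (s₀, a)) v} =
            (Sum.inl '' {v | E i (Sum.inr (s₀, a)) (Sum.inl v)} : Set V') := by
          ext w
          constructor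
          · intro hw
            rcases w with v | s
            · exact ⟨v, hw, rfl⟩
            · exact ((hE1 i _ _ hw).1 : False).elim
          · rintro ⟨v, hv, rfl⟩
            exact hv
        have hcard : k ≤ {v | E i (Sum.inr (s₀, a)) (Sum.inl v)}.ncard := by
          have h1 := hE2 i _ haU (Nat.succ_pos j)
          rw [hset, Set.ncard_image_of_injective _ Sum.inl_injective] at h1
          exact h1
        have hsubT : ∀ v, E i (Sum.inr (s₀, a)) (Sum.inl v) → v ∈ T := fun v hv =>
          (hE1 i _ _ hv).1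
        obtain ⟨v₀, hv₀⟩ : {v | E i (Sum.inr (s₀, a)) (Sum.inl v)}.Nonempty := by
          rw [← Set.ncard_pos (Set.toFinite _)]; omega
        have hiI : i ∈ I := (hI1 v₀ (hsubT v₀ hv₀) i).1 (hE1 i _ _ hv₀).2.2
        obtain ⟨C, hC⟩ : ∃ C : Finset V, C = Finset.univ.filter
            (fun v => E i (Sum.inr (s₀, a)) (Sum.inl v)) := ⟨_, rfl⟩
        have hCmem : ∀ v, v ∈ C ↔ E i (Sum.inr (s₀, a)) (Sum.inl v) := by
          intro v; rw [hC]; simp
        refine ⟨C.map ⟨Sum.inl, Sum.inl_injective⟩, ?_, ?_, ?_⟩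
        · rw [card_map]
          have : {v | E i (Sum.inr (s₀, a)) (Sum.inl v)} = (C : Set V) := by
            ext v; exact (hCmem v).symm
          rw [this, Set.ncard_coe_finset] at hcard
          exact hcard
        · intro u hu v hv
          obtain ⟨b, hb, rfl⟩ := mem_map.1 hu
          obtain ⟨v', hv', rfl⟩ := mem_map.1 hv
          have h1 := (hCmem v').1 hv'
          have h2 : v' ∈ {v | E i (Sum.inr (s₀, a)) (Sum.inl v)} := h1
          rw [(hFmem a ha i).1, ← (hFmem b hb i).1] at h2
          exact h2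
        · refine Chain.map ⟨Sum.inl, Sum.inl_injective⟩ (fun u v h => h) j
            (Chain.mono j (hI2 i hiI) ?_)
          intro v hv
          exact hsubT v ((hCmem v).1 hv)

/-- Lower levels inherit a chain inside `U`. -/
theorem chain_levels {V : Type} {R : V → V → Prop} {lev : V → ℕ}
    (hR1 : ∀ u v, R u v → lev u = lev v + 1) {k j : ℕ} (hk : 1 ≤ k) {E : V → V → Prop}
    {U : Set V} (hE : ∀ u v, E u v → R u v ∧ u ∈ U ∧ v ∈ U) {T : Finset V} (hT : k ≤ T.card)
    (hTlev : ∀ u ∈ T, lev u = j) (hTU : ∀ u ∈ T, u ∈ U) (hch : Chain k E j T) :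
    ∃ C : ℕ → Finset V, (∀ l ≤ j, k ≤ (C l).card) ∧
      (∀ l < j, ∀ u ∈ C (l + 1), ∀ v ∈ C l, E u v) ∧
      (∀ l ≤ j, ∀ u ∈ C l, lev u = l) ∧ (∀ l ≤ j, ∀ u ∈ C l, u ∈ U) := by
  obtain ⟨C, hC0, hC1, hC2⟩ := hch.sets
  have hcard : ∀ l ≤ j, k ≤ (C l).card := by
    intro l hl
    rcases hl.lt_or_eq with h | h
    · exact hC1 l h
    · rw [h, hC0]; exact hT
  have hlow : ∀ l ≤ j, (∀ u ∈ C l, lev u = l) ∧ (∀ u ∈ C l, u ∈ U) := by
    intro l hl
    induction hl using Nat.decreasingInduction with
    | self => rw [hC0]; exact ⟨hTlev, hTU⟩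
    | of_succ l hlt ih =>
      obtain ⟨u, hu⟩ : (C (l + 1)).Nonempty := by
        rw [← Finset.card_pos]
        have := hcard (l + 1) hlt
        omega
      refine ⟨fun v hv => ?_, fun v hv => (hE _ _ (hC2 l hlt u hu v hv)).2.2⟩
      have h1 := hR1 _ _ (hE _ _ (hC2 l hlt u hu v hv)).1
      rw [ih.1 u hu] at h1
      omega
  exact ⟨C, hcard, hC2, fun l hl => (hlow l hl).1, fun l hl => (hlow l hl).2⟩

/-- The digraphs in which chains cannot be avoided. -/
theorem core (k d H : ℕ) (hk : 2 ≤ k) (hkd : k ≤ d) :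
    ∃ (V : Type) (_ : Fintype V) (Adj : V → V → Prop), Nonempty V ∧ (∀ v, ¬ Adj v v) ∧
      (∀ v, d ≤ {w | Adj v w}.ncard) ∧
      ∀ (U : Set V) (E : V → V → Prop), U.Nonempty →
        (∀ u v, E u v → Adj u v ∧ u ∈ U ∧ v ∈ U) → (∀ u ∈ U, k ≤ {v | E u v}.ncard) →
        ∃ (C : ℕ → Finset V) (lev : V → ℕ), (∀ l ≤ H, k ≤ (C l).card) ∧
          (∀ l < H, ∀ u ∈ C (l + 1), ∀ v ∈ C l, E u v) ∧ (∀ l ≤ H, ∀ u ∈ C l, lev u = l) ∧
          (∀ l ≤ H, ∀ u ∈ C l, u ∈ U) := by
  classical
  obtain ⟨V, _, R, lev, hR1, hR2, hR3, hR4⟩ := layered k d d (by omega) (by omega) H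
  -- configurations
  let Good : Set V × Set (V × V) → Prop := fun ω =>
    (∀ u v, (u, v) ∈ ω.2 → R u v ∧ u ∈ ω.1 ∧ v ∈ ω.1) ∧
    (∀ u ∈ ω.1, 0 < lev u → k ≤ {v | (u, v) ∈ ω.2}.ncard) ∧
    ¬ ∃ T : Finset V, d ≤ T.card ∧ (∀ u ∈ T, lev u = H) ∧ (∀ u ∈ T, u ∈ ω.1) ∧
      Chain k (fun u v => (u, v) ∈ ω.2) H T
  have hA : ∀ Φ : Finset (Set V × Set (V × V)), ∃ A : Finset V, Φ.card < d →
      d ≤ A.card ∧ ∀ ω ∈ Φ, Good ω → ∀ u ∈ A, u ∉ ω.1 := by
    intro Φ
    by_cases hΦ : Φ.card < d
    · obtain ⟨T, hT1, hT2, I, hI1, hI2⟩ := hR4 {ω : Φ // Good ω.1}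
        ((Fintype.card_subtype_le _).trans (by rw [Fintype.card_coe]; exact hΦ.le))
        (fun ω => ω.1.1.1) (fun ω u v => (u, v) ∈ ω.1.1.2)
        (fun ω u v h => ω.2.1 u v h) (fun ω u hu hlev => ω.2.2.1 u hu hlev)
      refine ⟨T, fun _ => ⟨hT1, fun ω hω hgood u hu hmem => ?_⟩⟩
      have hi : (⟨⟨ω, hω⟩, hgood⟩ : {ω : Φ // Good ω.1}) ∈ I :=
        (hI1 u hu ⟨⟨ω, hω⟩, hgood⟩).1 hmem
      exact hgood.2.2 ⟨T, hT1, hT2, fun v hv => (hI1 v hv _).2 hi, hI2 _ hi⟩
    · exact ⟨∅, fun h => absurd h hΦ⟩
  choose A hA using hA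
  -- size of the configuration space, and existence of a vertex
  obtain ⟨v₀, -⟩ : ∃ v : V, True := by
    have h1 := (hA ∅ (by simp; omega)).1
    have h2 : (A ∅).Nonempty := by rw [← Finset.card_pos]; omega
    exact ⟨h2.choose, trivial⟩
  have hcardΩ : d ≤ (Finset.univ : Finset (Set V × Set (V × V))).card := by
    rw [Finset.card_univ, Fintype.card_prod, Fintype.card_set, Fintype.card_set]
    have h1 := (hA ∅ (by simp; omega)).1
    have h2 : (A ∅).card ≤ Fintype.card V := Finset.card_le_univ _
    calc d ≤ Fintype.card V := h1.trans h2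
      _ ≤ 2 ^ Fintype.card V := (Nat.lt_two_pow_self).le
      _ ≤ _ := Nat.le_mul_of_pos_right _ (by positivity)
  let adj : (V ⊕ Finset (Set V × Set (V × V))) → (V ⊕ Finset (Set V × Set (V × V))) → Prop :=
    fun a b => match a, b with
      | Sum.inl u, Sum.inl v => R u v
      | Sum.inl u, Sum.inr Ψ => lev u = 0 ∧ ∃ ω, Ψ = Finset.univ.erase ω
      | Sum.inr Φ, Sum.inr Ψ => d ≤ Φ.card ∧ ∃ ω ∈ Φ, Ψ = Φ.erase ω
      | Sum.inr Φ, Sum.inl v => Φ.card < d ∧ v ∈ A Φ
  refine ⟨V ⊕ Finset (Set V × Set (V × V)), inferInstance, adj, ⟨Sum.inl v₀⟩, ?_, ?_, ?_⟩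
  · rintro (v | Φ) hv
    · have := hR1 v v hv
      omega
    · obtain ⟨_, ω, hω, h1⟩ := hv
      have := Finset.card_erase_lt_of_mem hω
      rw [← h1] at this
      exact lt_irrefl _ this
  · rintro (u | Φ)
    · by_cases hlev : 0 < lev u
      · refine (hR3 u hlev).trans ?_
        have : (Sum.inl '' {v | R u v} : Set (V ⊕ Finset (Set V × Set (V × V)))) ⊆
            {v | adj (Sum.inl u) v} := by
          rintro _ ⟨v, hv, rfl⟩
          exact hv
        calc {v | R u v}.ncard =
              (Sum.inl '' {v | R u v} : Set (V ⊕ Finset (Set V × Set (V × V)))).ncard :=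
              (Set.ncard_image_of_injective _ Sum.inl_injective).symm
          _ ≤ _ := Set.ncard_le_ncard this (Set.toFinite _)
      · have hlev0 : lev u = 0 := by omega
        have h1 : ((Finset.univ : Finset (Set V × Set (V × V))).image
            (fun ω => (Sum.inr (Finset.univ.erase ω) :
              V ⊕ Finset (Set V × Set (V × V))))).card
            = (Finset.univ : Finset (Set V × Set (V × V))).card := by
          apply Finset.card_image_of_injOn
          intro a _ b _ hab
          have h2 : (Finset.univ : Finset (Set V × Set (V × V))).erase a = Finset.univ.erase b :=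
            Sum.inr_injective hab
          by_contra hne
          have h3 : a ∈ (Finset.univ : Finset (Set V × Set (V × V))).erase b :=
            Finset.mem_erase.2 ⟨hne, Finset.mem_univ _⟩
          rw [← h2] at h3
          exact (Finset.mem_erase.1 h3).1 rfl
        have h4 : ((((Finset.univ : Finset (Set V × Set (V × V))).image
            (fun ω => (Sum.inr (Finset.univ.erase ω) :
              V ⊕ Finset (Set V × Set (V × V))))) : Finset _) :
              Set (V ⊕ Finset (Set V × Set (V × V)))) ⊆ {w | adj (Sum.inl u) w} := by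
          intro w hw
          rw [Finset.mem_coe, Finset.mem_image] at hw
          obtain ⟨ω, _, rfl⟩ := hw
          exact ⟨hlev0, ω, rfl⟩
        have h5 := Set.ncard_le_ncard h4 (Set.toFinite _)
        rw [Set.ncard_coe_finset, h1] at h5
        exact hcardΩ.trans h5
    · by_cases hΦ : Φ.card < d
      · have h1 : ((A Φ).image
            (fun h => (Sum.inl h : V ⊕ Finset (Set V × Set (V × V))))).card = (A Φ).card := by
          apply Finset.card_image_of_injOn
          intro a _ b _ hab
          exact Sum.inl_injective hab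
        have h4 : ((((A Φ).image
            (fun h => (Sum.inl h : V ⊕ Finset (Set V × Set (V × V))))) :
              Finset _) : Set (V ⊕ Finset (Set V × Set (V × V)))) ⊆
              {w | adj (Sum.inr Φ) w} := by
          intro w hw
          rw [Finset.mem_coe, Finset.mem_image] at hw
          obtain ⟨h, hh, rfl⟩ := hw
          exact ⟨hΦ, hh⟩
        have h5 := Set.ncard_le_ncard h4 (Set.toFinite _)
        rw [Set.ncard_coe_finset, h1] at h5
        exact (hA Φ hΦ).1.trans h5
      · have hΦ' : d ≤ Φ.card := not_lt.1 hΦ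
        have h1 : (Φ.image
            (fun ω => (Sum.inr (Φ.erase ω) : V ⊕ Finset (Set V × Set (V × V))))).card
            = Φ.card := by
          apply Finset.card_image_of_injOn
          intro a ha b hb hab
          have h2 : Φ.erase a = Φ.erase b := Sum.inr_injective hab
          by_contra hne
          have h3 : a ∈ Φ.erase b := Finset.mem_erase.2 ⟨hne, ha⟩
          rw [← h2] at h3
          exact (Finset.mem_erase.1 h3).1 rfl
        have h4 : (((Φ.image
            (fun ω => (Sum.inr (Φ.erase ω) : V ⊕ Finset (Set V × Set (V × V))))) :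
              Finset _) : Set (V ⊕ Finset (Set V × Set (V × V)))) ⊆
              {w | adj (Sum.inr Φ) w} := by
          intro w hw
          rw [Finset.mem_coe, Finset.mem_image] at hw
          obtain ⟨ω, hω, rfl⟩ := hw
          exact ⟨hΦ', ω, hω, rfl⟩
        have h5 := Set.ncard_le_ncard h4 (Set.toFinite _)
        rw [Set.ncard_coe_finset, h1] at h5
        exact hΦ'.trans h5
  · intro U E hUne hE1 hE2
    -- the configuration of the subdigraph
    obtain ⟨ω₀, hω₀⟩ : ∃ ω₀ : Set V × Set (V × V), ω₀ =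
        ({u | Sum.inl u ∈ U}, {e | E (Sum.inl e.1) (Sum.inl e.2)}) := ⟨_, rfl⟩
    have hω1 : ∀ u, u ∈ ω₀.1 ↔ Sum.inl u ∈ U := by intro u; rw [hω₀]; rfl
    have hω2 : ∀ u v, (u, v) ∈ ω₀.2 ↔ E (Sum.inl u) (Sum.inl v) := by
      intro u v; rw [hω₀]; rfl
    by_contra hno
    have hgood : Good ω₀ := by
      refine ⟨?_, ?_, ?_⟩
      · intro u v h
        have h1 := hE1 _ _ ((hω2 u v).1 h)
        exact ⟨h1.1, (hω1 u).2 h1.2.1, (hω1 v).2 h1.2.2⟩
      · intro u hu hlev
        refine (hE2 _ ((hω1 u).1 hu)).trans ?_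
        have hsub : {v | E (Sum.inl u) v} ⊆
            (Sum.inl '' {v | (u, v) ∈ ω₀.2} : Set (V ⊕ Finset (Set V × Set (V × V)))) := by
          rintro (v | Ψ) hv
          · exact ⟨v, (hω2 u v).2 hv, rfl⟩
          · have h1 : lev u = 0 := (hE1 _ _ hv).1.1
            omega
        calc _ ≤ (Sum.inl '' {v | (u, v) ∈ ω₀.2} :
              Set (V ⊕ Finset (Set V × Set (V × V)))).ncard :=
              Set.ncard_le_ncard hsub (Set.toFinite _)
          _ = _ := Set.ncard_image_of_injective _ Sum.inl_injective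
      · rintro ⟨T, hT1, hT2, hT3, hT4⟩
        obtain ⟨C, hC1, hC2, hC3, hC4⟩ := chain_levels hR1 (k := k) (j := H) (by omega)
          (E := fun u v => (u, v) ∈ ω₀.2) (U := ω₀.1)
          (by
            intro u v h
            have h1 := hE1 _ _ ((hω2 u v).1 h)
            exact ⟨h1.1, (hω1 u).2 h1.2.1, (hω1 v).2 h1.2.2⟩)
          (hkd.trans hT1) hT2 hT3 hT4
        apply hno
        refine ⟨fun l => (C l).map ⟨Sum.inl, Sum.inl_injective⟩,
          Sum.elim lev (fun _ => 0), ?_, ?_, ?_, ?_⟩
        · intro l hl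
          rw [card_map]
          exact hC1 l hl
        · intro l hl u hu v hv
          obtain ⟨u', hu', rfl⟩ := mem_map.1 hu
          obtain ⟨v', hv', rfl⟩ := mem_map.1 hv
          exact (hω2 _ _).1 (hC2 l hl u' hu' v' hv')
        · intro l hl u hu
          obtain ⟨u', hu', rfl⟩ := mem_map.1 hu
          exact hC3 l hl u' hu'
        · intro l hl u hu
          obtain ⟨u', hu', rfl⟩ := mem_map.1 hu
          exact (hω1 _).1 (hC4 l hl u' hu')
    have htwo : ∀ v, v ∈ U → ∃ a b, a ≠ b ∧ E v a ∧ E v b := by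
      intro v hv
      have h1 := hE2 v hv
      have h2 : 1 < {w | E v w}.ncard := by omega
      obtain ⟨a, ha, b, hb, hab⟩ := (Set.one_lt_ncard (Set.toFinite _)).1 h2
      exact ⟨a, b, hab, ha, hb⟩
    have key : ∀ n : ℕ, ∀ Φ : Finset (Set V × Set (V × V)), Φ.card = n → ω₀ ∈ Φ →
        Sum.inr Φ ∉ U := by
      intro n
      induction n with
      | zero =>
        intro Φ hΦ hmem
        rw [Finset.card_eq_zero] at hΦ
        rw [hΦ] at hmem
        exact absurd hmem (Finset.notMem_empty _)
      | succ n ih =>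
        intro Φ hΦ hmem hin
        obtain ⟨a, b, hab, haE, hbE⟩ := htwo _ hin
        by_cases hlt : Φ.card < d
        · rcases a with v | Ψ
          · have h1 : v ∈ A Φ := (hE1 _ _ haE).1.2
            exact (hA Φ hlt).2 ω₀ hmem hgood v h1 ((hω1 v).2 (hE1 _ _ haE).2.2)
          · have h1 : d ≤ Φ.card := (hE1 _ _ haE).1.1
            omega
        · have huniq : ∀ a, E (Sum.inr Φ) a → a = Sum.inr (Φ.erase ω₀) := by
            intro a haE
            rcases a with v | Ψ
            · exact absurd (hE1 _ _ haE).1.1 hlt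
            · obtain ⟨_, ω, hω, rfl⟩ := (hE1 _ _ haE).1
              by_cases hωω : ω = ω₀
              · rw [hωω]
              · exfalso
                refine ih (Φ.erase ω) ?_ ?_ (hE1 _ _ haE).2.2
                · rw [Finset.card_erase_of_mem hω, hΦ]; rfl
                · exact Finset.mem_erase.2 ⟨fun h => hωω h.symm, hmem⟩
          exact hab ((huniq a haE).trans (huniq b hbE).symm)
    have hlevels : ∀ n : ℕ, ∀ u : V, lev u = n → Sum.inl u ∉ U := by
      intro n
      induction n with
      | zero =>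
        intro u hlev hu
        have huniq : ∀ a, E (Sum.inl u) a → a = Sum.inr (Finset.univ.erase ω₀) := by
          intro a haE
          rcases a with v | Ψ
          · have := hR1 u v (hE1 _ _ haE).1
            omega
          · obtain ⟨_, ω, rfl⟩ := (hE1 _ _ haE).1
            by_cases hωω : ω = ω₀
            · rw [hωω]
            · exfalso
              refine key _ (Finset.univ.erase ω) rfl ?_ (hE1 _ _ haE).2.2
              exact Finset.mem_erase.2 ⟨fun h => hωω h.symm, Finset.mem_univ _⟩
        obtain ⟨a, b, hab, haE, hbE⟩ := htwo _ hu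
        exact hab ((huniq a haE).trans (huniq b hbE).symm)
      | succ n ih =>
        intro u hlev hu
        obtain ⟨a, b, hab, haE, hbE⟩ := htwo _ hu
        rcases a with v | Ψ
        · have h1 := hR1 u v (hE1 _ _ haE).1
          exact ih v (by omega) (hE1 _ _ haE).2.2
        · have h1 : lev u = 0 := (hE1 _ _ haE).1.1
          omega
    have hnodes : ∀ n : ℕ, ∀ Φ : Finset (Set V × Set (V × V)), Φ.card = n →
        Sum.inr Φ ∉ U := by
      intro n
      induction n with
      | zero =>
        intro Φ hΦ hin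
        obtain ⟨a, b, hab, haE, hbE⟩ := htwo _ hin
        rcases a with v | Ψ
        · exact hlevels _ v rfl (hE1 _ _ haE).2.2
        · have h1 : d ≤ Φ.card := (hE1 _ _ haE).1.1
          omega
      | succ n ih =>
        intro Φ hΦ hin
        obtain ⟨a, b, hab, haE, hbE⟩ := htwo _ hin
        rcases a with v | Ψ
        · exact hlevels _ v rfl (hE1 _ _ haE).2.2
        · obtain ⟨_, ω, hω, rfl⟩ := (hE1 _ _ haE).1
          refine ih (Φ.erase ω) ?_ (hE1 _ _ haE).2.2
          rw [Finset.card_erase_of_mem hω, hΦ]; rfl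
    obtain ⟨v, hv⟩ := hUne
    rcases v with u | Φ
    · exact hlevels _ u rfl hv
    · exact hnodes _ Φ rfl hv

end Pool.Agent.R15.Avoid
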