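import Mathlib
import Pool.Agent.Y335.FL.Order

/-! # Contracting disjoint balls in graphs of girth at least twelve

A graph with girth at least twelve in which every vertex with a neighbour has three neighbours has
a simple minor with minimum degree at least six and cyclomatic number at least 64. -/

set_option autoImplicit false
set_option linter.unusedSectionVars false

namespace Pool.Agent.R15.CDeg

open Finset Pool.Agent.Y335.FL

open Classical in
section

variable {V : Type} [Fintype V] (G : SimpleGraph V)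

/-- there is an edge between `A` and `B` -/
def Tch (A B : Finset V) : Prop := ∃ a ∈ A, ∃ b ∈ B, G.Adj a b

/-- `A` is connected -/
def Cn (A : Finset V) : Prop :=
  A.Nonempty ∧ ∀ X ⊆ A, X.Nonempty → X ≠ A → Tch G X (A \ X)

/-- the vertices with neighbours -/
noncomputable def NI : Finset V := univ.filter (fun v => ∃ y, G.Adj v y)

/-- the closed neighbourhood -/
noncomputable def N1 (c : V) : Finset V := univ.filter (fun y => y = c ∨ G.Adj c y)

variable {G}

theorem mem_NI {v : V} : v ∈ NI G ↔ ∃ y, G.Adj v y := by simp [NI]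

theorem mem_N1 {c v : V} : v ∈ N1 G c ↔ v = c ∨ G.Adj c v := by simp [N1]

theorem exC : ∃ C ⊆ NI G, (∀ c ∈ C, ∀ d ∈ C, c ≠ d → Disjoint (N1 G c) (N1 G d)) ∧
    ∀ u ∈ NI G, ∃ c ∈ C, ¬ Disjoint (N1 G u) (N1 G c) := by
  obtain ⟨C, hC, hmax⟩ := Finset.exists_max_image
    ((NI G).powerset.filter (fun C => ∀ c ∈ C, ∀ d ∈ C, c ≠ d → Disjoint (N1 G c) (N1 G d)))
    Finset.card ⟨∅, by simp⟩
  rw [mem_filter, mem_powerset] at hC
  refine ⟨C, hC.1, hC.2, fun u hu => ?_⟩
  by_contra hcon
  push Not at hcon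
  have huC : u ∉ C := by
    intro h
    have h1 := hcon u h
    rw [disjoint_self, bot_eq_empty] at h1
    have h2 : u ∈ N1 G u := mem_N1.2 (Or.inl rfl)
    rw [h1] at h2
    exact notMem_empty _ h2
  have h1 := hmax (insert u C) (by
    rw [mem_filter, mem_powerset]
    refine ⟨insert_subset hu hC.1, ?_⟩
    intro c hc d hd hcd
    rcases mem_insert.1 hc with hc1 | hc1
    · rcases mem_insert.1 hd with hd1 | hd1
      · exact absurd (hc1.trans hd1.symm) hcd
      · rw [hc1]; exact hcon d hd1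
    · rcases mem_insert.1 hd with hd1 | hd1
      · rw [hd1]; exact (hcon c hc1).symm
      · exact hC.2 c hc1 d hd1 hcd)
  rw [card_insert_of_notMem huC] at h1
  omega

/-- the assignment of the vertices to the centres -/
structure Asg (G : SimpleGraph V) (C : Finset V) (f : V → V) : Prop where
  sub : C ⊆ NI G
  mem : ∀ u ∈ NI G, f u ∈ C
  ball : ∀ u, ∀ c ∈ C, u ∈ N1 G c → f u = c
  near : ∀ u ∈ NI G, u = f u ∨ G.Adj u (f u) ∨ ∃ w, G.Adj u w ∧ G.Adj w (f u)

theorem exf : ∃ (C : Finset V) (f : V → V), Asg G C f := by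
  obtain ⟨C, h1, h2, h3⟩ := exC (G := G)
  have key : ∀ u, ∃ c, (u ∈ NI G → c ∈ C) ∧ (∀ d ∈ C, u ∈ N1 G d → c = d) ∧
      (u ∈ NI G → u = c ∨ G.Adj u c ∨ ∃ w, G.Adj u w ∧ G.Adj w c) := by
    intro u
    by_cases h : ∃ c ∈ C, u ∈ N1 G c
    · obtain ⟨c, hc, huc⟩ := h
      refine ⟨c, fun _ => hc, ?_, fun _ => ?_⟩
      · intro d hd hud
        by_contra hne
        exact Finset.disjoint_left.1 (h2 c hc d hd hne) huc hud
      · rcases mem_N1.1 huc with h | h
        · exact Or.inl h
        · exact Or.inr (Or.inl h.symm)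
    · push Not at h
      by_cases hu : u ∈ NI G
      · obtain ⟨c, hc, hnd⟩ := h3 u hu
        rw [Finset.not_disjoint_iff] at hnd
        obtain ⟨w, hw1, hw2⟩ := hnd
        refine ⟨c, fun _ => hc, fun d hd hud => absurd hud (h d hd), fun _ => ?_⟩
        rcases mem_N1.1 hw1 with rfl | hw1
        · exact absurd hw2 (h c hc)
        · rcases mem_N1.1 hw2 with rfl | hw2
          · exact Or.inr (Or.inl hw1)
          · exact Or.inr (Or.inr ⟨w, hw1, hw2.symm⟩)
      · exact ⟨u, fun h => absurd h hu, fun d hd hud => absurd hud (h d hd),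
          fun h => absurd h hu⟩
  choose f hf1 hf2 hf3 using key
  exact ⟨C, f, h1, hf1, hf2, hf3⟩

namespace Asg

variable {C : Finset V} {f : V → V} (A : Asg G C f)
include A

theorem fc {c : V} (hc : c ∈ C) : f c = c := A.ball c c hc (mem_N1.2 (Or.inl rfl))

/-- the cluster of `c` -/
theorem path {u : V} (hu : u ∈ NI G) : ∃ p : G.Walk (f u) u, p.IsPath ∧ p.length ≤ 2 ∧
    ∀ x ∈ p.support, f x = f u := by
  have hC := A.mem u hu
  have hff := A.fc hC
  by_cases h0 : u = f u
  · refine ⟨(SimpleGraph.Walk.nil : G.Walk u u).copy h0 rfl, ?_, ?_, ?_⟩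
    · simp
    · simp
    · intro x hx
      simp only [SimpleGraph.Walk.support_copy, SimpleGraph.Walk.support_nil,
        List.mem_singleton] at hx
      rw [hx]
  · rcases A.near u hu with h | h | ⟨w, h1, h2⟩
    · exact absurd h h0
    · refine ⟨SimpleGraph.Walk.cons h.symm SimpleGraph.Walk.nil, ?_, ?_, ?_⟩
      · rw [SimpleGraph.Walk.cons_isPath_iff]
        refine ⟨SimpleGraph.Walk.IsPath.nil, ?_⟩
        simp only [SimpleGraph.Walk.support_nil, List.mem_singleton]
        exact h.symm.ne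
      · simp
      · intro x hx
        simp only [SimpleGraph.Walk.support_cons, SimpleGraph.Walk.support_nil,
          List.mem_cons, List.not_mem_nil, or_false] at hx
        rcases hx with rfl | rfl
        · exact hff
        · rfl
    · have hw : f w = f u := A.ball w (f u) hC (mem_N1.2 (Or.inr h2.symm))
      refine ⟨SimpleGraph.Walk.cons h2.symm (SimpleGraph.Walk.cons h1.symm
        SimpleGraph.Walk.nil), ?_, ?_, ?_⟩
      · rw [SimpleGraph.Walk.cons_isPath_iff, SimpleGraph.Walk.cons_isPath_iff]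
        refine ⟨⟨SimpleGraph.Walk.IsPath.nil, ?_⟩, ?_⟩
        · simp only [SimpleGraph.Walk.support_nil, List.mem_singleton]
          exact h1.symm.ne
        · simp only [SimpleGraph.Walk.support_cons, SimpleGraph.Walk.support_nil,
            List.mem_cons, List.not_mem_nil, or_false]
          rintro (h | h)
          · exact h2.symm.ne h
          · exact h0 h.symm
      · simp
      · intro x hx
        simp only [SimpleGraph.Walk.support_cons, SimpleGraph.Walk.support_nil,
          List.mem_cons, List.not_mem_nil, or_false] at hx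
        rcases hx with rfl | rfl | rfl
        · exact hff
        · exact hw
        · rfl

end Asg

variable (G) in
/-- the cluster of the centre `c` -/
noncomputable def Bc (f : V → V) (c : V) : Finset V := (NI G).filter (fun u => f u = c)

theorem mem_Bc {f : V → V} {c u : V} : u ∈ Bc G f c ↔ u ∈ NI G ∧ f u = c := by
  simp [Bc]

namespace Asg

variable {C : Finset V} {f : V → V} (A : Asg G C f)
include A

theorem cn {c : V} (hc : c ∈ C) : Cn G (Bc G f c) := by
  have hcB : c ∈ Bc G f c := mem_Bc.2 ⟨A.sub hc, A.fc hc⟩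
  have key : ∀ X ⊆ Bc G f c, c ∈ X → X ≠ Bc G f c →
      ∃ a ∈ X, ∃ b ∈ Bc G f c \ X, G.Adj a b := by
    intro X hX hcX hne
    obtain ⟨u, hu, huX⟩ : ∃ u ∈ Bc G f c, u ∉ X := by
      by_contra hcon
      push Not at hcon
      exact hne (Finset.Subset.antisymm hX hcon)
    obtain ⟨hu1, hu2⟩ := mem_Bc.1 hu
    rcases A.near u hu1 with h | h | ⟨w, h1, h2⟩
    · rw [hu2] at h
      exact absurd (h ▸ hcX) huX
    · rw [hu2] at h
      exact ⟨c, hcX, u, mem_sdiff.2 ⟨hu, huX⟩, h.symm⟩
    · rw [hu2] at h2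
      have hw : w ∈ Bc G f c :=
        mem_Bc.2 ⟨mem_NI.2 ⟨u, h1.symm⟩, A.ball w c hc (mem_N1.2 (Or.inr h2.symm))⟩
      by_cases hwX : w ∈ X
      · exact ⟨w, hwX, u, mem_sdiff.2 ⟨hu, huX⟩, h1.symm⟩
      · exact ⟨c, hcX, w, mem_sdiff.2 ⟨hw, hwX⟩, h2.symm⟩
  refine ⟨⟨c, hcB⟩, fun X hX hXn hne => ?_⟩
  by_cases hcX : c ∈ X
  · exact key X hX hcX hne
  · obtain ⟨a, ha, b, hb, hab⟩ := key (Bc G f c \ X) sdiff_subset
      (mem_sdiff.2 ⟨hcB, hcX⟩) (by
        intro h
        obtain ⟨x, hx⟩ := hXn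
        have h1 := hX hx
        rw [← h] at h1
        exact (mem_sdiff.1 h1).2 hx)
    rw [Finset.sdiff_sdiff_eq_self hX] at hb
    exact ⟨b, hb, a, ha, hab.symm⟩

variable (h12 : ∀ (w : V) (c : G.Walk w w), c.IsCycle → 12 ≤ c.length)
include h12

/-- the number of adjacent ordered pairs in a cluster -/
theorem inner {c : V} (hc : c ∈ C) :
    (((Bc G f c) ×ˢ (Bc G f c)).filter (fun p => G.Adj p.1 p.2)).card + 2 ≤
      2 * (Bc G f c).card := by
  set B := Bc G f c with hB
  have hcB : c ∈ B := mem_Bc.2 ⟨A.sub hc, A.fc hc⟩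
  have hp : ∀ u, ∃ p : V, u ∈ B → ∃ q : G.Walk c u, q.IsPath ∧ q.length ≤ 2 ∧
      q.penultimate = p := by
    intro u
    by_cases hu : u ∈ B
    · obtain ⟨h1, h2⟩ := mem_Bc.1 hu
      have h3 := A.path h1
      rw [h2] at h3
      obtain ⟨q, hq1, hq2, -⟩ := h3
      exact ⟨q.penultimate, fun _ => ⟨q, hq1, hq2, rfl⟩⟩
    · exact ⟨u, fun h => absurd h hu⟩
  choose par hpar using hp
  have hcc : par c = c := by
    obtain ⟨q, hq1, -, hq3⟩ := hpar c hcB
    have hn := SimpleGraph.Walk.isPath_iff_nil.1 hq1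
    rw [← hq3]
    have := SimpleGraph.Walk.nil_iff_eq_nil.1 hn
    rw [this]
    simp
  have key : ∀ u ∈ B, ∀ w ∈ B, G.Adj u w → w = par u ∨ u = par w := by
    intro u hu w hw h
    obtain ⟨p, hp1, hp2, hp3⟩ := hpar u hu
    obtain ⟨q, hq1, hq2, hq3⟩ := hpar w hw
    by_cases h1 : u ∈ q.support
    · by_cases h2 : w ∈ p.support
      · exfalso
        have e1 := Ord.uniq h12 (hq1.takeUntil h1) hp1 (by
          have := q.length_takeUntil_le_length h1
          omega)
        have e2 := Ord.uniq h12 (hp1.takeUntil h2) hq1 (by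
          have := p.length_takeUntil_le_length h2
          omega)
        have l1 := SimpleGraph.Walk.length_takeUntil_lt_length h1 h.ne
        have l2 := SimpleGraph.Walk.length_takeUntil_lt_length h2 h.ne'
        rw [e1] at l1
        rw [e2] at l2
        omega
      · right
        have e := Ord.uniq h12 hq1 (hp1.concat h2 h) (by
          rw [SimpleGraph.Walk.length_concat]
          omega)
        rw [← hq3, e, SimpleGraph.Walk.penultimate_concat]
    · left
      have e := Ord.uniq h12 hp1 (hq1.concat h1 h.symm) (by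
        rw [SimpleGraph.Walk.length_concat]
        omega)
      rw [← hp3, e, SimpleGraph.Walk.penultimate_concat]
  have hsub : ((B ×ˢ B).filter (fun p => G.Adj p.1 p.2)) ⊆
      (B.erase c).image (fun u => (u, par u)) ∪ (B.erase c).image (fun u => (par u, u)) := by
    rintro ⟨u, w⟩ hx
    simp only [mem_filter, mem_product] at hx
    obtain ⟨⟨hu, hw⟩, h⟩ := hx
    rw [mem_union, mem_image, mem_image]
    rcases key u hu w hw h with e | e
    · left
      refine ⟨u, mem_erase.2 ⟨?_, hu⟩, by rw [e]⟩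
      rintro rfl
      rw [hcc] at e
      exact h.ne' e
    · right
      refine ⟨w, mem_erase.2 ⟨?_, hw⟩, by rw [e]⟩
      rintro rfl
      rw [hcc] at e
      exact h.ne e
  have h1 := (card_le_card hsub).trans (card_union_le _ _)
  have h2 := card_image_le (s := B.erase c) (f := fun u => (u, par u))
  have h3 := card_image_le (s := B.erase c) (f := fun u => (par u, u))
  have h4 := card_erase_of_mem hcB
  have h5 : 0 < B.card := card_pos.2 ⟨c, hcB⟩
  omega

omit A h12 in
theorem app_path {a b t d : V} (p : G.Walk a b) (h : G.Adj b t) (q : G.Walk t d)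
    (hp : p.IsPath) (hq : q.IsPath) (hd : ∀ x ∈ p.support, x ∉ q.support) :
    (p.append (SimpleGraph.Walk.cons h q)).IsPath := by
  rw [SimpleGraph.Walk.isPath_def, SimpleGraph.Walk.support_append,
    SimpleGraph.Walk.support_cons, List.tail_cons, List.nodup_append]
  refine ⟨hp.support_nodup, hq.support_nodup, ?_⟩
  rintro x hx y hy rfl
  exact hd x hx hy

/-- different edges which leave a cluster lead to different clusters -/
theorem inj {c : V} (hc : c ∈ C) {b1 t1 b2 t2 : V} (hb1 : b1 ∈ Bc G f c) (hb2 : b2 ∈ Bc G f c)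
    (h1 : G.Adj b1 t1) (h2 : G.Adj b2 t2) (ht1 : t1 ∉ Bc G f c) (ht2 : t2 ∉ Bc G f c)
    (he : f t1 = f t2) : b1 = b2 ∧ t1 = t2 := by
  obtain ⟨n1, f1⟩ := mem_Bc.1 hb1
  obtain ⟨n2, f2⟩ := mem_Bc.1 hb2
  have m1 : t1 ∈ NI G := mem_NI.2 ⟨b1, h1.symm⟩
  have m2 : t2 ∈ NI G := mem_NI.2 ⟨b2, h2.symm⟩
  have hne : f t1 ≠ c := fun h => ht1 (mem_Bc.2 ⟨m1, h⟩)
  have P1 := A.path n1
  have P2 := A.path n2
  have Q1 := A.path m1
  have Q2 := A.path m2
  rw [f1] at P1
  rw [f2] at P2
  rw [← he] at Q2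
  obtain ⟨p1, p11, p12, p13⟩ := P1
  obtain ⟨p2, p21, p22, p23⟩ := P2
  obtain ⟨q1, q11, q12, q13⟩ := Q1
  obtain ⟨q2, q21, q22, q23⟩ := Q2
  have W1 := app_path p1 h1 q1.reverse p11 q11.reverse (by
    intro x hx hx'
    rw [SimpleGraph.Walk.support_reverse, List.mem_reverse] at hx'
    exact hne ((q13 x hx').symm.trans (p13 x hx)))
  have W2 := app_path p2 h2 q2.reverse p21 q21.reverse (by
    intro x hx hx'
    rw [SimpleGraph.Walk.support_reverse, List.mem_reverse] at hx'
    exact hne ((q23 x hx').symm.trans (p23 x hx)))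
  have e := Ord.uniq h12 W1 W2 (by
    simp only [SimpleGraph.Walk.length_append, SimpleGraph.Walk.length_cons,
      SimpleGraph.Walk.length_reverse]
    omega)
  have d1 : (⟨(b1, t1), h1⟩ : G.Dart) ∈
      (p1.append (SimpleGraph.Walk.cons h1 q1.reverse)).darts := by
    rw [SimpleGraph.Walk.darts_append, SimpleGraph.Walk.darts_cons]
    exact List.mem_append_right _ List.mem_cons_self
  rw [e, SimpleGraph.Walk.darts_append, SimpleGraph.Walk.darts_cons, List.mem_append,
    List.mem_cons] at d1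
  rcases d1 with d1 | d1 | d1
  · exact absurd (p23 _ (p2.dart_snd_mem_support_of_mem_darts d1)) hne
  · have := congrArg SimpleGraph.Dart.toProd d1
    simp only [Prod.mk.injEq] at this
    exact this
  · have h3 := SimpleGraph.Walk.dart_fst_mem_support_of_mem_darts _ d1
    rw [SimpleGraph.Walk.support_reverse, List.mem_reverse] at h3
    exact absurd ((q23 _ h3).symm.trans f1) hne

variable (h3 : ∀ x y, G.Adj x y → 3 ≤ (univ.filter (fun z => G.Adj x z)).card)
include h3

theorem bdry {c : V} (hc : c ∈ C) : (Bc G f c).card + 2 ≤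
    (((Bc G f c) ×ˢ univ).filter (fun p => G.Adj p.1 p.2 ∧ p.2 ∉ Bc G f c)).card := by
  have h4 := A.inner h12 hc
  have h5 : 3 * (Bc G f c).card ≤
      (((Bc G f c) ×ˢ (univ : Finset V)).filter (fun p => G.Adj p.1 p.2)).card := by
    rw [card_filter, sum_product, mul_comm, ← smul_eq_mul, ← sum_const]
    refine sum_le_sum fun b hb => ?_
    rw [← card_filter]
    obtain ⟨y, hy⟩ := mem_NI.1 (mem_Bc.1 hb).1
    exact h3 b y hy
  have h6 : ((Bc G f c) ×ˢ (univ : Finset V)).filter (fun p => G.Adj p.1 p.2) ⊆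
      ((Bc G f c) ×ˢ (Bc G f c)).filter (fun p => G.Adj p.1 p.2) ∪
      ((Bc G f c) ×ˢ univ).filter (fun p => G.Adj p.1 p.2 ∧ p.2 ∉ Bc G f c) := by
    rintro ⟨b, t⟩ hx
    simp only [mem_filter, mem_product, mem_univ, and_true, mem_union] at hx ⊢
    by_cases ht : t ∈ Bc G f c
    · exact Or.inl ⟨⟨hx.1, ht⟩, hx.2⟩
    · exact Or.inr ⟨hx.1, hx.2, ht⟩
  have h7 := (card_le_card h6).trans (card_union_le _ _)
  omega

/-- every cluster is joined to many others -/
theorem deg {c : V} (hc : c ∈ C) : (Bc G f c).card + 2 ≤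
    (C.filter (fun d => d ≠ c ∧ Tch G (Bc G f c) (Bc G f d))).card := by
  refine (A.bdry h12 h3 hc).trans ?_
  refine card_le_card_of_injOn (fun p => f p.2) ?_ ?_
  · rintro ⟨b, t⟩ hx
    have hx' := mem_filter.1 (Finset.mem_coe.1 hx)
    simp only [mem_product, mem_univ, and_true] at hx'
    obtain ⟨hb, h, ht⟩ := hx'
    have m : t ∈ NI G := mem_NI.2 ⟨b, h.symm⟩
    refine Finset.mem_coe.2 (mem_filter.2 ⟨A.mem t m, ?_, b, hb, t, mem_Bc.2 ⟨m, rfl⟩, h⟩)
    exact fun e => ht (mem_Bc.2 ⟨m, e⟩)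
  · rintro ⟨b1, t1⟩ hx1 ⟨b2, t2⟩ hx2 he
    have hx1' := mem_filter.1 (Finset.mem_coe.1 hx1)
    have hx2' := mem_filter.1 (Finset.mem_coe.1 hx2)
    simp only [mem_product, mem_univ, and_true] at hx1' hx2'
    obtain ⟨e1, e2⟩ := A.inj h12 hc hx1'.1 hx2'.1 hx1'.2.1 hx2'.2.1 hx1'.2.2 hx2'.2.2 he
    rw [e1, e2]

theorem four {c : V} (hc : c ∈ C) : 4 ≤ (Bc G f c).card := by
  obtain ⟨y, hy⟩ := mem_NI.1 (A.sub hc)
  have h4 := h3 c y hy
  have h5 : insert c (univ.filter (fun z => G.Adj c z)) ⊆ Bc G f c := by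
    intro x hx
    rw [mem_insert] at hx
    rcases hx with rfl | hx
    · exact mem_Bc.2 ⟨A.sub hc, A.fc hc⟩
    · have := (mem_filter.1 hx).2
      exact mem_Bc.2 ⟨mem_NI.2 ⟨c, this.symm⟩, A.ball x c hc (mem_N1.2 (Or.inr this))⟩
  have h6 := card_le_card h5
  rw [card_insert_of_notMem (by simp)] at h6
  omega

end Asg

/-- the graph of the pairs of sets which are joined by an edge -/
def TG (G : SimpleGraph V) {k : ℕ} (B : Fin k → Finset V) : SimpleGraph (Fin k) where
  Adj i j := i ≠ j ∧ Tch G (B i) (B j)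
  symm := ⟨fun _ _ h => ⟨h.1.symm, by
    obtain ⟨a, ha, b, hb, hab⟩ := h.2
    exact ⟨b, hb, a, ha, hab.symm⟩⟩⟩
  loopless := ⟨fun _ h => h.1 rfl⟩

theorem main (h12 : ∀ (w : V) (c : G.Walk w w), c.IsCycle → 12 ≤ c.length)
    (h3 : ∀ x y, G.Adj x y → 3 ≤ (univ.filter (fun z => G.Adj x z)).card)
    (h126 : 126 ≤ (NI G).card) :
    ∃ (k : ℕ) (B : Fin k → Finset V), (∀ i j, i ≠ j → Disjoint (B i) (B j)) ∧
      (∀ i, Cn G (B i)) ∧ (∀ i, B i ⊆ NI G) ∧ (∀ i, 6 ≤ (TG G B).degree i) ∧
      k + 63 ≤ (TG G B).edgeFinset.card := by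
  obtain ⟨C, f, A⟩ := exf (G := G)
  set e := C.equivFin with he
  have hB : ∀ i : Fin C.card, ((e.symm i : C) : V) ∈ C := fun i => (e.symm i).2
  have hdeg : ∀ i : Fin C.card, (Bc G f (e.symm i)).card + 2 ≤
      (TG G (fun i : Fin C.card => Bc G f (e.symm i))).degree i := by
    intro i
    refine (A.deg h12 h3 (hB i)).trans ?_
    rw [← SimpleGraph.card_neighborFinset_eq_degree]
    refine card_le_card_of_injOn (fun d => if h : d ∈ C then e ⟨d, h⟩ else i) ?_ ?_
    · intro d hd
      have hd' := mem_filter.1 (Finset.mem_coe.1 hd)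
      simp only [Finset.mem_coe, SimpleGraph.mem_neighborFinset, dif_pos hd'.1]
      refine ⟨?_, ?_⟩
      · intro h
        apply hd'.2.1
        have := congrArg (fun j => ((e.symm j : C) : V)) h
        simpa using this.symm
      · simpa using hd'.2.2
    · intro d hd d' hd' hdd
      have h1 := (mem_filter.1 (Finset.mem_coe.1 hd)).1
      have h2 := (mem_filter.1 (Finset.mem_coe.1 hd')).1
      simp only [dif_pos h1, dif_pos h2] at hdd
      have := e.injective hdd
      exact congrArg Subtype.val this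
  refine ⟨C.card, fun i => Bc G f (e.symm i), ?_, fun i => A.cn (hB i), ?_, ?_, ?_⟩
  · intro i j hij
    rw [Finset.disjoint_left]
    intro x hx hx'
    have h1 := (mem_Bc.1 hx).2
    have h2 := (mem_Bc.1 hx').2
    apply hij
    apply e.symm.injective
    exact Subtype.ext (h1.symm.trans h2)
  · intro i x hx
    exact (mem_Bc.1 hx).1
  · intro i
    have h1 := hdeg i
    have h2 := A.four h12 h3 (hB i)
    omega
  · have h1 := (TG G (fun i : Fin C.card => Bc G f (e.symm i))).sum_degrees_eq_twice_card_edges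
    have h2 : ∑ i : Fin C.card, ((Bc G f (e.symm i)).card + 2) ≤
        ∑ i, (TG G (fun i : Fin C.card => Bc G f (e.symm i))).degree i :=
      sum_le_sum fun i _ => hdeg i
    have h3' : ∑ i : Fin C.card, (Bc G f (e.symm i)).card = (NI G).card := by
      have h4 : ∑ i : Fin C.card, (Bc G f (e.symm i)).card = ∑ c : C, (Bc G f c).card :=
        Equiv.sum_comp e.symm (fun c : C => (Bc G f c).card)
      rw [h4, Finset.sum_coe_sort C (fun c => (Bc G f c).card)]
      rw [card_eq_sum_card_fiberwise (f := f) (s := NI G) (t := C)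
        (fun x hx => A.mem x hx)]
      rfl
    rw [sum_add_distrib, h3', sum_const, card_univ, Fintype.card_fin, smul_eq_mul] at h2
    omega

end

end Pool.Agent.R15.CDeg
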