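import Mathlib
import Pool.Agent.Y335.FL.Order
import Pool.Agent.R15.CDegGraph

/-! # Nowhere-zero 5-flows in graphs whose dense minors have a vertex of small degree -/

set_option autoImplicit false
set_option linter.unusedSectionVars false

namespace Pool.Agent.R15.CDeg

open Finset Pool.Agent.TH676.Z Pool.Agent.Y335.FL

variable {V E : Type}

/-- some edge of the graph has one end in `A` and the other end in `B` -/
def Joined (src dst : E → V) (A B : Finset V) : Prop :=
  ∃ e, (src e ∈ A ∧ dst e ∈ B) ∨ (src e ∈ B ∧ dst e ∈ A)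

/-- `A` induces a connected subgraph -/
def Connected [DecidableEq V] (src dst : E → V) (A : Finset V) : Prop :=
  A.Nonempty ∧ ∀ X ⊆ A, X.Nonempty → X ≠ A → Joined src dst X (A \ X)

/-- the graph obtained by contracting the sets `B i` -/
def minorGraph (src dst : E → V) {k : ℕ} (B : Fin k → Finset V) : SimpleGraph (Fin k) where
  Adj i j := i ≠ j ∧ Joined src dst (B i) (B j)
  symm := ⟨fun _ _ h => ⟨h.1.symm, by
    obtain ⟨e, he | he⟩ := h.2
    · exact ⟨e, Or.inr he⟩
    · exact ⟨e, Or.inl he⟩⟩⟩
  loopless := ⟨fun _ h => h.1 rfl⟩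

/-- the minors with large cyclomatic number have a vertex of degree at most five -/
def Small [DecidableEq V] (src dst : E → V) : Prop :=
  ∀ (k : ℕ) (B : Fin k → Finset V), (∀ i j, i ≠ j → Disjoint (B i) (B j)) →
    (∀ i, Connected src dst (B i)) → k + 63 ≤ (minorGraph src dst B).edgeSet.ncard →
    ∃ i, ((minorGraph src dst B).neighborSet i).ncard ≤ 5

variable [Fintype V] [DecidableEq V] [Fintype E] [DecidableEq E]

theorem mc_small : MC (V := V) (E := E) Small := by
  constructor
  · intro src dst e h _ k B hd hc hk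
    have hJ : ∀ A B : Finset V, Disjoint A B → Joined src (Pool.Agent.TH676.Z.lp src dst {e}) A B →
        Joined src dst A B := by
      rintro A B hAB ⟨d, hd⟩
      have hne : d ∉ ({e} : Finset E) := by
        intro hd'
        rcases hd with ⟨h1, h2⟩ | ⟨h1, h2⟩
        · rw [Pool.Agent.TH676.Z.lp, if_pos hd'] at h2
          exact Finset.disjoint_left.1 hAB h1 h2
        · rw [Pool.Agent.TH676.Z.lp, if_pos hd'] at h2
          exact Finset.disjoint_left.1 hAB h2 h1
      unfold Pool.Agent.TH676.Z.lp at hd
      rw [if_neg hne] at hd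
      exact ⟨d, hd⟩
    have hle : minorGraph src (Pool.Agent.TH676.Z.lp src dst {e}) B ≤ minorGraph src dst B := by
      intro i j hij
      exact ⟨hij.1, hJ _ _ (hd i j hij.1) hij.2⟩
    obtain ⟨i, hi⟩ := h k B hd (fun i => ⟨(hc i).1, fun X hX hX1 hX2 =>
      hJ _ _ disjoint_sdiff ((hc i).2 X hX hX1 hX2)⟩)
      (hk.trans (Set.ncard_le_ncard (SimpleGraph.edgeSet_mono hle) (Set.toFinite _)))
    exact ⟨i, (Set.ncard_le_ncard (fun j hj => hle hj) (Set.toFinite _)).trans hi⟩
  · intro src dst e h hne k B hd hc hk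
    set u := src e with hu
    set v := dst e with hv
    have hcv : ∀ x, ctr u v x ≠ v := by
      intro x hx
      unfold ctr at hx
      split_ifs at hx with h1
      · exact hne hx
      · exact h1 hx
    by_cases hvB : ∃ i, v ∈ B i
    · obtain ⟨i, hi⟩ := hvB
      have hno : ∀ X : Finset V, ¬ Joined (ctr u v ∘ src) (ctr u v ∘ dst) {v} X := by
        rintro X ⟨d, h1 | h1⟩
        · exact hcv _ (mem_singleton.1 h1.1)
        · exact hcv _ (mem_singleton.1 h1.2)
      have hBi : {v} = B i := by
        by_contra hne'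
        exact hno _ ((hc i).2 {v} (singleton_subset_iff.2 hi) (singleton_nonempty v) hne')
      refine ⟨i, ?_⟩
      have : (minorGraph (ctr u v ∘ src) (ctr u v ∘ dst) B).neighborSet i = ∅ := by
        rw [Set.eq_empty_iff_forall_notMem]
        intro j hj
        have h1 := hj.2
        rw [← hBi] at h1
        exact hno _ h1
      rw [this]
      simp
    · push Not at hvB
      set B' : Fin k → Finset V := fun i => univ.filter (fun x => ctr u v x ∈ B i) with hB'
      have hm : ∀ i x, x ∈ B' i ↔ ctr u v x ∈ B i := by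
        intro i x
        simp [hB']
      have hfix : ∀ x, x ≠ v → ctr u v x = x := by
        intro x hx
        unfold ctr
        rw [if_neg hx]
      have hvu : ctr u v v = u := by
        unfold ctr
        rw [if_pos rfl]
      have hG : minorGraph src dst B' = minorGraph (ctr u v ∘ src) (ctr u v ∘ dst) B := by
        ext i j
        show (i ≠ j ∧ Joined src dst (B' i) (B' j)) ↔
          (i ≠ j ∧ Joined (ctr u v ∘ src) (ctr u v ∘ dst) (B i) (B j))
        unfold Joined
        simp only [hm, Function.comp_apply]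
      rw [← hG] at hk ⊢
      refine h k B' ?_ ?_ hk
      · intro i j hij
        rw [Finset.disjoint_left]
        intro x hx hx'
        exact Finset.disjoint_left.1 (hd i j hij) ((hm i x).1 hx) ((hm j x).1 hx')
      · intro i
        refine ⟨?_, ?_⟩
        · obtain ⟨x, hx⟩ := (hc i).1
          refine ⟨x, (hm i x).2 ?_⟩
          rw [hfix x (fun h => hvB i (h ▸ hx))]
          exact hx
        · intro X hX hXn hXne
          by_cases hsep : (u ∈ X ∧ v ∈ B' i \ X) ∨ (u ∈ B' i \ X ∧ v ∈ X)
          · exact ⟨e, hsep⟩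
          · -- `u` and `v` are on the same side
            have hX1 : ∀ x ∈ B' i, ctr u v x ∈ X → x ∈ X := by
              intro x hx hx'
              by_cases hxv : x = v
              · rw [hxv, hvu] at hx'
                by_contra hcon
                exact hsep (Or.inl ⟨hx', mem_sdiff.2 ⟨hxv ▸ hx, hxv ▸ hcon⟩⟩)
              · rw [hfix x hxv] at hx'
                exact hx'
            have hX2 : ∀ x ∈ B' i, ctr u v x ∉ X → x ∉ X := by
              intro x hx hx' hcon
              by_cases hxv : x = v
              · rw [hxv, hvu] at hx'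
                rw [hxv] at hcon hx
                have hu' : u ∈ B' i := by
                  rw [hm]
                  have := (hm i v).1 hx
                  rw [hvu] at this
                  rw [hfix u hne]
                  exact this
                exact hsep (Or.inr ⟨mem_sdiff.2 ⟨hu', hx'⟩, hcon⟩)
              · rw [hfix x hxv] at hx'
                exact hx' hcon
            have hsub : X.erase v ⊆ B i := by
              intro x hx
              have h1 := (hm i x).1 (hX (mem_of_mem_erase hx))
              rwa [hfix x (ne_of_mem_erase hx)] at h1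
            have hcX : ∀ x ∈ X, ctr u v x ∈ X.erase v := by
              intro x hx
              refine mem_erase.2 ⟨hcv x, ?_⟩
              by_contra hcon
              exact hX2 x (hX hx) hcon hx
            have hne1 : (X.erase v).Nonempty := by
              obtain ⟨x, hx⟩ := hXn
              exact ⟨_, hcX x hx⟩
            have hne2 : X.erase v ≠ B i := by
              intro heq
              apply hXne
              refine Finset.Subset.antisymm hX fun x hx => ?_
              have h1 := (hm i x).1 hx
              rw [← heq] at h1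
              exact hX1 x hx (mem_of_mem_erase h1)
            obtain ⟨d, hd'⟩ := (hc i).2 (X.erase v) hsub hne1 hne2
            have k1 : ∀ x, ctr u v x ∈ X.erase v → x ∈ X := fun x hx =>
              hX1 x ((hm i x).2 (hsub hx)) (mem_of_mem_erase hx)
            have k2 : ∀ x, ctr u v x ∈ B i \ X.erase v → x ∈ B' i \ X := by
              intro x hx
              obtain ⟨h1, h2⟩ := mem_sdiff.1 hx
              have h3 := (hm i x).2 h1
              refine mem_sdiff.2 ⟨h3, fun h4 => h2 (hcX x h4)⟩
            rcases hd' with ⟨h1, h2⟩ | ⟨h1, h2⟩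
            · exact ⟨d, Or.inl ⟨k1 _ h1, k2 _ h2⟩⟩
            · exact ⟨d, Or.inr ⟨k2 _ h1, k1 _ h2⟩⟩

theorem flow_small (hg : St_girth12) {src dst : E → V} (h : Small src dst)
    (hb : Br src dst ∅ ∅) : FlowOn src dst ∅ ∅ := by
  classical
  by_contra hn
  obtain ⟨s, d, hs, hM⟩ := crit V E Small mc_small src dst h hb hn
  obtain ⟨-, hT⟩ := gi_all V E s d hM
  have hG := hg V E s d hM
  have hsy : ∀ a b, Adj s d a b → Adj s d b a := fun a b h => ⟨h.1.symm, h.2.imp fun e he => he.symm⟩
  have hir : ∀ a, ¬ Adj s d a a := fun a h => h.1 rfl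
  refine hM.nf (flow_of_loops fun e => ?_)
  by_contra he
  have hadj : Adj s d (s e) (d e) := ⟨he, e, Or.inl ⟨rfl, rfl⟩⟩
  have h126 := moore V (Adj s d) hsy hir hG hT ⟨_, _, hadj⟩
  set G : SimpleGraph V := ⟨Adj s d, ⟨fun a b h => hsy a b h⟩, ⟨hir⟩⟩ with hGdef
  have hGA : ∀ a b, G.Adj a b ↔ Adj s d a b := fun a b => Iff.rfl
  have h12 : ∀ (w : V) (c : G.Walk w w), c.IsCycle → 12 ≤ c.length :=
    fun w c hc => Ord.cycle_len hG G hGA c hc
  have h3 : ∀ x y, G.Adj x y → 3 ≤ (univ.filter (fun z => G.Adj x z)).card := by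
    intro x y hxy
    obtain ⟨a, b, c, ha, hb', hc, hab, hac, hbc⟩ := hT x y hxy
    have h4 : ({a, b, c} : Finset V) ⊆ univ.filter (fun z => G.Adj x z) := by
      intro z hz
      simp only [mem_insert, mem_singleton] at hz
      rw [mem_filter]
      rcases hz with rfl | rfl | rfl
      · exact ⟨mem_univ _, ha⟩
      · exact ⟨mem_univ _, hb'⟩
      · exact ⟨mem_univ _, hc⟩
    calc 3 = ({a, b, c} : Finset V).card := by
          rw [card_insert_of_notMem (by simp [hab, hac]), card_pair hbc]
      _ ≤ _ := card_le_card h4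
  have hNI : 126 ≤ (NI G).card := by
    refine h126.trans (card_le_card fun x hx => ?_)
    rw [mem_NI]
    exact (mem_filter.1 hx).2
  obtain ⟨k, B, hd, hc, -, h6, hk⟩ := main h12 h3 hNI
  have hTJ : ∀ A B : Finset V, Disjoint A B → (Tch G A B ↔ Joined s d A B) := by
    intro A B hAB
    constructor
    · rintro ⟨a, ha, b, hb', -, e', ⟨rfl, rfl⟩ | ⟨rfl, rfl⟩⟩
      · exact ⟨e', Or.inl ⟨ha, hb'⟩⟩
      · exact ⟨e', Or.inr ⟨hb', ha⟩⟩
    · rintro ⟨e', ⟨ha, hb'⟩ | ⟨hb', ha⟩⟩
      · refine ⟨s e', ha, d e', hb', fun h => ?_, e', Or.inl ⟨rfl, rfl⟩⟩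
        exact Finset.disjoint_left.1 hAB ha (h ▸ hb')
      · refine ⟨d e', ha, s e', hb', fun h => ?_, e', Or.inr ⟨rfl, rfl⟩⟩
        exact Finset.disjoint_left.1 hAB ha (h ▸ hb')
  have hGG : TG G B = minorGraph s d B := by
    ext i j
    show (i ≠ j ∧ Tch G (B i) (B j)) ↔ (i ≠ j ∧ Joined s d (B i) (B j))
    exact and_congr_right fun hij => hTJ _ _ (hd i j hij)
  obtain ⟨i, hi⟩ := hs k B hd (fun i => ⟨(hc i).1, fun X hX h1 h2 =>
    (hTJ _ _ disjoint_sdiff).1 (by
      obtain ⟨a, ha, b, hb', hab⟩ := (hc i).2 X hX h1 h2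
      have hb2 : b ∈ B i ∧ b ∉ X := (@Finset.mem_sdiff V (_) (B i) X b).1 hb'
      exact ⟨a, ha, b, mem_sdiff.2 hb2, hab⟩)⟩) (by
      rw [← hGG, ← SimpleGraph.coe_edgeFinset, Set.ncard_coe_finset]
      exact hk)
  have h7 := h6 i
  rw [← hGG, ← SimpleGraph.coe_neighborFinset, Set.ncard_coe_finset,
    SimpleGraph.card_neighborFinset_eq_degree] at hi
  omega

end Pool.Agent.R15.CDeg
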