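import Mathlib

namespace Pool.Agent.R15.DegSq

/-- the sorted, shifted form of the arithmetic inequality -/
theorem arith_sorted (x p q r : ℕ) :
    ((3*x+2*p+q+r)%3)*(3*(3*x+2*p+q+r)+1) ≤
      3*r^2*(3*x+2*p+q) + (r%3)*(3*r+1) + 6*(3*x+2*r)*(p^2+p*q+q^2)
        + (2*p+q)*(7*p^2+7*p*q+4*q^2) := by
  have hm : ((3*x+2*p+q+r)%3) ≤ 2 := by omega
  obtain hr | hr | hr | hr : r = 0 ∨ r = 1 ∨ r = 2 ∨ 3 ≤ r := by omega
  · subst hr
    by_cases h0 : p = 0 ∧ q = 0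
    · obtain ⟨rfl, rfl⟩ := h0
      have : (3*x+2*0+0+0)%3 = 0 := by omega
      rw [this]; simp
    by_cases h1 : p = 0 ∧ q = 1
    · obtain ⟨rfl, rfl⟩ := h1
      have : (3*x+2*0+1+0)%3 = 1 := by omega
      rw [this]; ring_nf; omega
    by_cases h2 : p = 1 ∧ q = 0
    · obtain ⟨rfl, rfl⟩ := h2
      have : (3*x+2*1+0+0)%3 = 2 := by omega
      rw [this]; ring_nf; omega
    have hpq : 2 ≤ p + q := by omega
    have e1 : 3 ≤ p^2+p*q+q^2 := by nlinarith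
    have e2 : 14 ≤ 7*p^2+7*p*q+4*q^2 := by nlinarith
    have e3 : 2 ≤ 2*p+q := by omega
    have l1 : ((3*x+2*p+q+0)%3)*(3*(3*x+2*p+q+0)+1) ≤ 2*(3*(3*x+2*p+q+0)+1) :=
      Nat.mul_le_mul_right _ hm
    have l2 : 6*(3*x+2*0)*3 ≤ 6*(3*x+2*0)*(p^2+p*q+q^2) := Nat.mul_le_mul_left _ e1
    have l3 : (2*p+q)*14 ≤ (2*p+q)*(7*p^2+7*p*q+4*q^2) := Nat.mul_le_mul_left _ e2
    refine le_trans l1 ?_
    generalize 6*(3*x+2*0)*(p^2+p*q+q^2) = A at *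
    generalize (2*p+q)*(7*p^2+7*p*q+4*q^2) = B at *
    have z1 : 3*0^2*(3*x+2*p+q) = 0 := by ring
    rw [z1]
    omega
  · subst hr
    by_cases h0 : p = 0 ∧ q = 0
    · obtain ⟨rfl, rfl⟩ := h0
      have : (3*x+2*0+0+1)%3 = 1 := by omega
      rw [this]; ring_nf; omega
    have e1 : 1 ≤ p^2+p*q+q^2 := by
      rcases Nat.eq_zero_or_pos p with h | h
      · have : 0 < q := by omega
        nlinarith
      · nlinarith
    have e2 : 4 ≤ 7*p^2+7*p*q+4*q^2 := by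
      rcases Nat.eq_zero_or_pos p with h | h
      · have : 0 < q := by omega
        nlinarith
      · nlinarith
    have l1 : ((3*x+2*p+q+1)%3)*(3*(3*x+2*p+q+1)+1) ≤ 2*(3*(3*x+2*p+q+1)+1) :=
      Nat.mul_le_mul_right _ hm
    have l2 : 6*(3*x+2*1)*1 ≤ 6*(3*x+2*1)*(p^2+p*q+q^2) := Nat.mul_le_mul_left _ e1
    have l3 : (2*p+q)*4 ≤ (2*p+q)*(7*p^2+7*p*q+4*q^2) := Nat.mul_le_mul_left _ e2
    have l4 : (1%3 : ℕ) = 1 := by norm_num
    rw [l4]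
    nlinarith
  · subst hr
    have l1 : ((3*x+2*p+q+2)%3)*(3*(3*x+2*p+q+2)+1) ≤ 2*(3*(3*x+2*p+q+2)+1) :=
      Nat.mul_le_mul_right _ hm
    have l4 : (2%3 : ℕ) = 2 := by norm_num
    rw [l4]
    have l2 : 0 ≤ 6*(3*x+2*2)*(p^2+p*q+q^2) := Nat.zero_le _
    have l3 : 0 ≤ (2*p+q)*(7*p^2+7*p*q+4*q^2) := Nat.zero_le _
    nlinarith
  · rcases Nat.eq_zero_or_pos (3*x+2*p+q) with h | h
    · have hx : x = 0 := by omega
      have hp : p = 0 := by omega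
      have hq : q = 0 := by omega
      subst hx; subst hp; subst hq
      simp
    · have l1 : ((3*x+2*p+q+r)%3)*(3*(3*x+2*p+q+r)+1) ≤ 2*(3*(3*x+2*p+q+r)+1) :=
        Nat.mul_le_mul_right _ hm
      have l2 : 0 ≤ 6*(3*x+2*r)*(p^2+p*q+q^2) := Nat.zero_le _
      have l3 : 0 ≤ (2*p+q)*(7*p^2+7*p*q+4*q^2) := Nat.zero_le _
      have l5 : 0 ≤ (r%3)*(3*r+1) := Nat.zero_le _
      generalize 3*x+2*p+q = s at *
      have key : 2*(3*(s+r)+1) ≤ 3*r^2*s := by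
        obtain ⟨t, rfl⟩ := Nat.exists_eq_add_of_le hr
        obtain ⟨u, rfl⟩ := Nat.exists_eq_add_of_le h
        nlinarith [Nat.zero_le (t*u), Nat.zero_le (t^2*u), Nat.zero_le (t^2), Nat.zero_le u]
      omega

/-- sorted version of the block inequality -/
theorem arith_aux (x p q r : ℕ) :
    9*(x*((x+p)+(x+p+q)+r)^2 + (x+p)*(x+(x+p+q)+r)^2 + (x+p+q)*(x+(x+p)+r)^2) + 4*r^3
      + ((x+(x+p)+(x+p+q)+r)%3)*(3*(x+(x+p)+(x+p+q)+r)+1)
      ≤ 4*(x+(x+p)+(x+p+q)+r)^3 + (r%3)*(3*r+1) := by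
  have h := arith_sorted x p q r
  have e : x+(x+p)+(x+p+q)+r = 3*x+2*p+q+r := by ring
  rw [e]
  generalize hA : ((3*x+2*p+q+r)%3)*(3*(3*x+2*p+q+r)+1) = A at *
  generalize hB : (r%3)*(3*r+1) = B at *
  zify at h ⊢
  nlinarith [h]

theorem arith_block (x y z r : ℕ) :
    9*(x*(y+z+r)^2 + y*(x+z+r)^2 + z*(x+y+r)^2) + 4*r^3
      + ((x+y+z+r)%3)*(3*(x+y+z+r)+1)
      ≤ 4*(x+y+z+r)^3 + (r%3)*(3*r+1) := by
  wlog hxy : x ≤ y generalizing x y z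
  · have := this y x z (by omega)
    rw [show y+x+z+r = x+y+z+r by ring] at this
    nlinarith [this]
  wlog hyz : y ≤ z generalizing x y z
  · rcases le_total x z with h | h
    · have := this x z y h (by omega)
      rw [show x+z+y+r = x+y+z+r by ring] at this
      nlinarith [this]
    · have := this z x y h hxy
      rw [show z+x+y+r = x+y+z+r by ring] at this
      nlinarith [this]
  obtain ⟨p, rfl⟩ := Nat.exists_eq_add_of_le hxy
  obtain ⟨q, rfl⟩ := Nat.exists_eq_add_of_le hyz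
  exact arith_aux x p q r

end Pool.Agent.R15.DegSq
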