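import Mathlib
import Pool.Agent.R15.DegSqA

namespace Pool.Agent.R15.DegSq

/-- no copy of `R₄`, as a pattern (distinctness is automatic when `E` is loopless) -/
def NoR4 {V : Type*} (E : V → V → Prop) : Prop :=
  ∀ a b c d, E a b → E b c → E c d → E d a → E a c → E b d → False

/-- `S` receives no arc from `R \ S` -/
def InClosed {V : Type*} (E : V → V → Prop) (R S : Finset V) : Prop :=
  ∀ x ∈ R, x ∉ S → ∀ s ∈ S, ¬ E x s

/-- semicomplete on `R` -/
def Semi {V : Type*} (E : V → V → Prop) (R : Finset V) : Prop :=
  ∀ a ∈ R, ∀ b ∈ R, a ≠ b → E a b ∨ E b a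

theorem four_cycle {V : Type*} {E : V → V → Prop} {R : Finset V}
    (hF : NoR4 E) (hS : Semi E R) {a b c d : V} (ha : a ∈ R) (hb : b ∈ R) (hc : c ∈ R)
    (hd : d ∈ R) (hac : a ≠ c) (hbd : b ≠ d)
    (h1 : E a b) (h2 : E b c) (h3 : E c d) (h4 : E d a) : False := by
  rcases hS a ha c hc hac with h | h <;> rcases hS b hb d hd hbd with h' | h'
  · exact hF a b c d h1 h2 h3 h4 h h'
  · exact hF d a b c h4 h1 h2 h3 h' h
  · exact hF b c d a h2 h3 h4 h1 h' h
  · exact hF c d a b h3 h4 h1 h2 h h'

/-- shape of an initial strong component -/
def Shape {V : Type*} [DecidableEq V] (E : V → V → Prop) (S : Finset V) : Prop :=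
  (∃ s, S = {s}) ∨ (∃ s t, s ≠ t ∧ E s t ∧ E t s ∧ S = {s, t}) ∨
  (∃ s t u, s ≠ t ∧ t ≠ u ∧ u ≠ s ∧ E s t ∧ E t u ∧ E u s ∧ S = {s, t, u})

theorem exists_initial {V : Type*} [DecidableEq V] {E : V → V → Prop}
    (hF : NoR4 E) (R : Finset V) (hS : Semi E R) (hne : R.Nonempty) :
    ∃ S, S ⊆ R ∧ InClosed E R S ∧ Shape E S := by
  classical
  induction R using Finset.induction_on with
  | empty => exact absurd hne (by simp)
  | insert v R' hv ih =>
    by_cases hR' : R'.Nonempty
    swap
    · have : R' = ∅ := Finset.not_nonempty_iff_eq_empty.mp hR'
      subst this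
      refine ⟨{v}, by simp, ?_, Or.inl ⟨v, rfl⟩⟩
      intro x hx hx'
      simp at hx hx'
      exact absurd hx hx'
    have hS' : Semi E R' := fun a ha b hb hab =>
      hS a (Finset.mem_insert_of_mem ha) b (Finset.mem_insert_of_mem hb) hab
    obtain ⟨S, hSR, hcl, hsh⟩ := ih hS' hR'
    have hvR : v ∈ insert v R' := Finset.mem_insert_self _ _
    have hin : ∀ {x}, x ∈ R' → x ∈ insert v R' := fun h => Finset.mem_insert_of_mem h
    have hnv : ∀ {x}, x ∈ R' → x ≠ v := fun h e => hv (e ▸ h)
    -- easy case: no arc from v to S
    by_cases hvS : ∀ s ∈ S, ¬ E v s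
    · refine ⟨S, hSR.trans (Finset.subset_insert _ _), ?_, hsh⟩
      intro x hx hxS s hs
      rcases Finset.mem_insert.mp hx with rfl | hx
      · exact hvS s hs
      · exact hcl x hx hxS s hs
    push Not at hvS
    -- out of S
    have hout : ∀ x ∈ R', x ∉ S → ∀ s ∈ S, E s x := by
      intro x hx hxS s hs
      rcases hS' x hx s (hSR hs) (fun e => hxS (e ▸ hs)) with h | h
      · exact absurd h (hcl x hx hxS s hs)
      · exact h
    rcases hsh with ⟨s, rfl⟩ | ⟨s, t, hst, h1, h2, rfl⟩ | ⟨s, t, u, hst, htu, hus, h1, h2, h3, rfl⟩
    · -- singleton
      have hsR : s ∈ R' := hSR (by simp)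
      have hvs : E v s := by
        obtain ⟨s', hs', h⟩ := hvS
        rw [Finset.mem_singleton] at hs'
        exact hs' ▸ h
      by_cases hx : ∃ x ∈ R', x ≠ s ∧ E x v
      · obtain ⟨x, hxR, hxs, hxv⟩ := hx
        have hsx : E s x := hout x hxR (by simpa using hxs) s (by simp)
        refine ⟨{s, x, v}, ?_, ?_, Or.inr (Or.inr ⟨s, x, v, hxs.symm, hnv hxR, (hnv hsR).symm, hsx, hxv, hvs, rfl⟩)⟩
        · intro y hy
          simp only [Finset.mem_insert, Finset.mem_singleton] at hy
          rcases hy with rfl | rfl | rfl
          · exact hin hsR
          · exact hin hxR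
          · exact hvR
        · intro y hy hyS z hz
          simp only [Finset.mem_insert, Finset.mem_singleton, not_or] at hyS hz
          obtain ⟨hys, hyx, hyv⟩ := hyS
          have hyR : y ∈ R' := by
            rcases Finset.mem_insert.mp hy with h | h
            · exact absurd h hyv
            · exact h
          have hsy : E s y := hout y hyR (by simpa using hys) s (by simp)
          have hyx' : ¬ E y x := fun h =>
            four_cycle hF hS (hin hsR) hy (hin hxR) hvR hxs.symm (hnv hyR) hsy h hxv hvs
          rcases hz with rfl | rfl | rfl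
          · exact hcl y hyR (by simpa using hys) _ (by simp)
          · exact hyx'
          · intro h
            rcases hS' y hyR x hxR hyx with h' | h'
            · exact hyx' h'
            · exact four_cycle hF hS (hin hsR) (hin hxR) hy hvR (Ne.symm hys) (hnv hxR) hsx h' h hvs
      · push Not at hx
        by_cases hsv : E s v
        · refine ⟨{s, v}, ?_, ?_, Or.inr (Or.inl ⟨s, v, hnv hsR, hsv, hvs, rfl⟩)⟩
          · intro y hy
            simp only [Finset.mem_insert, Finset.mem_singleton] at hy
            rcases hy with rfl | rfl
            · exact hin hsR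
            · exact hvR
          · intro y hy hyS z hz
            simp only [Finset.mem_insert, Finset.mem_singleton, not_or] at hyS hz
            have hyR : y ∈ R' := by
              rcases Finset.mem_insert.mp hy with h | h
              · exact absurd h hyS.2
              · exact h
            rcases hz with rfl | rfl
            · exact hcl y hyR (by simpa using hyS.1) _ (by simp)
            · exact hx y hyR hyS.1
        · refine ⟨{v}, by simp, ?_, Or.inl ⟨v, rfl⟩⟩
          intro y hy hyS z hz
          rw [Finset.mem_singleton] at hyS hz
          subst hz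
          have hyR : y ∈ R' := by
            rcases Finset.mem_insert.mp hy with h | h
            · exact absurd h hyS
            · exact h
          by_cases hys : y = s
          · subst hys; exact hsv
          · exact hx y hyR hys
    · -- digon
      have hsR : s ∈ R' := hSR (by simp)
      have htR : t ∈ R' := hSR (by simp)
      -- wlog E v s
      have main : ∀ s t, s ∈ R' → t ∈ R' → s ≠ t → E s t → E t s → E v s →
          (∀ x ∈ R', x ∉ ({s, t} : Finset V) → ¬ E x s ∧ ¬ E x t ∧ E s x ∧ E t x) →
          ∃ S, S ⊆ insert v R' ∧ InClosed E (insert v R') S ∧ Shape E S := by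
        clear hsR htR hst h1 h2 hSR hcl hvS hout ih s t
        intro s t hsR htR hst h1 h2 hvs hx
        have hnx : ∀ x ∈ R', x ∉ ({s, t} : Finset V) → ¬ E x v := by
          intro x hxR hxS hxv
          obtain ⟨_, _, h5, h6⟩ := hx x hxR hxS
          refine four_cycle hF hS hvR (hin hsR) (hin htR) (hin hxR) (hnv htR).symm ?_ hvs h1 h6 hxv
          intro e; subst e; simp at hxS
        by_cases hback : E s v ∨ E t v
        · refine ⟨{s, t, v}, ?_, ?_, ?_⟩
          · intro y hy
            simp only [Finset.mem_insert, Finset.mem_singleton] at hy
            rcases hy with rfl | rfl | rfl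
            · exact hin hsR
            · exact hin htR
            · exact hvR
          · intro y hy hyS z hz
            simp only [Finset.mem_insert, Finset.mem_singleton, not_or] at hyS hz
            obtain ⟨hys, hyt, hyv⟩ := hyS
            have hyR : y ∈ R' := by
              rcases Finset.mem_insert.mp hy with h | h
              · exact absurd h hyv
              · exact h
            have hyS' : y ∉ ({s, t} : Finset V) := by simp [hys, hyt]
            obtain ⟨h3, h4, _, _⟩ := hx y hyR hyS'
            rcases hz with rfl | rfl | rfl
            · exact h3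
            · exact h4
            · exact hnx y hyR hyS'
          · right; right
            by_cases htv : E t v
            · exact ⟨s, t, v, hst, hnv htR, (hnv hsR).symm, h1, htv, hvs, rfl⟩
            · have hsv : E s v := hback.resolve_right htv
              have hvt : E v t := by
                rcases hS v hvR t (hin htR) (hnv htR).symm with h | h
                · exact h
                · exact absurd h htv
              refine ⟨s, v, t, hnv hsR, (hnv htR).symm, hst.symm, hsv, hvt, h2, ?_⟩
              ext y
              simp only [Finset.mem_insert, Finset.mem_singleton]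
              tauto
        · push Not at hback
          refine ⟨{v}, by simp, ?_, Or.inl ⟨v, rfl⟩⟩
          intro y hy hyS z hz
          rw [Finset.mem_singleton] at hyS hz
          subst hz
          have hyR : y ∈ R' := by
            rcases Finset.mem_insert.mp hy with h | h
            · exact absurd h hyS
            · exact h
          by_cases hyS' : y ∈ ({s, t} : Finset V)
          · simp only [Finset.mem_insert, Finset.mem_singleton] at hyS'
            rcases hyS' with rfl | rfl
            · exact hback.1
            · exact hback.2
          · exact hnx y hyR hyS'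
      obtain ⟨w, hw, hvw⟩ := hvS
      simp only [Finset.mem_insert, Finset.mem_singleton] at hw
      rcases hw with rfl | rfl
      · refine main w t hsR htR hst h1 h2 hvw ?_
        intro x hxR hxS
        exact ⟨hcl x hxR hxS _ (by simp), hcl x hxR hxS _ (by simp), hout x hxR hxS _ (by simp),
          hout x hxR hxS _ (by simp)⟩
      · refine main w s htR hsR hst.symm h2 h1 hvw ?_
        intro x hxR hxS
        have hxS' : x ∉ ({s, w} : Finset V) := by
          intro h; apply hxS
          simp only [Finset.mem_insert, Finset.mem_singleton] at h ⊢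
          tauto
        exact ⟨hcl x hxR hxS' _ (by simp), hcl x hxR hxS' _ (by simp), hout x hxR hxS' _ (by simp),
          hout x hxR hxS' _ (by simp)⟩
    · -- triangle
      have hsR : s ∈ R' := hSR (by simp)
      have htR : t ∈ R' := hSR (by simp)
      have huR : u ∈ R' := hSR (by simp)
      have main : ∀ s t u, s ∈ R' → t ∈ R' → u ∈ R' → s ≠ t → t ≠ u → u ≠ s →
          E s t → E t u → E u s → E v s →
          (∀ x ∈ R', x ∉ ({s, t, u} : Finset V) → E t x) →
          InClosed E (insert v R') {v} := by
        clear hsR htR huR hst htu hus h1 h2 h3 hSR hcl hvS hout ih s t u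
        intro s t u hsR htR huR hst htu hus h1 h2 h3 hvs hx y hy hyS z hz
        rw [Finset.mem_singleton] at hyS hz
        subst hz
        have hyR : y ∈ R' := by
          rcases Finset.mem_insert.mp hy with h | h
          · exact absurd h hyS
          · exact h
        have b1 : ¬ E u z := fun h =>
          four_cycle hF hS hvR (hin hsR) (hin htR) (hin huR) (hnv htR).symm hus.symm hvs h1 h2 h
        have c1 : E z u := (hS z hvR u (hin huR) (hnv huR).symm).resolve_right b1
        have b2 : ¬ E t z := fun h =>
          four_cycle hF hS hvR (hin huR) (hin hsR) (hin htR) (hnv hsR).symm htu.symm c1 h3 h1 h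
        have c2 : E z t := (hS z hvR t (hin htR) (hnv htR).symm).resolve_right b2
        have b3 : ¬ E s z := fun h =>
          four_cycle hF hS hvR (hin htR) (hin huR) (hin hsR) (hnv huR).symm hst.symm c2 h2 h3 h
        by_cases hyS' : y ∈ ({s, t, u} : Finset V)
        · simp only [Finset.mem_insert, Finset.mem_singleton] at hyS'
          rcases hyS' with rfl | rfl | rfl
          · exact b3
          · exact b2
          · exact b1
        · intro hyv
          refine four_cycle hF hS hvR (hin hsR) (hin htR) hy (hnv htR).symm ?_ hvs h1 (hx y hyR hyS') hyv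
          intro e; subst e; simp at hyS'
      refine ⟨{v}, by simp, ?_, Or.inl ⟨v, rfl⟩⟩
      obtain ⟨w, hw, hvw⟩ := hvS
      simp only [Finset.mem_insert, Finset.mem_singleton] at hw
      rcases hw with rfl | rfl | rfl
      · exact main w t u hsR htR huR hst htu hus h1 h2 h3 hvw
          (fun x hx hxS => hout x hx hxS _ (by simp))
      · refine main w u s htR huR hsR htu hus hst h2 h3 h1 hvw
          (fun x hx hxS => hout x hx ?_ _ (by simp))
        intro h; apply hxS
        simp only [Finset.mem_insert, Finset.mem_singleton] at h ⊢
        tauto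
      · refine main w s t huR hsR htR hus hst htu h3 h1 h2 hvw
          (fun x hx hxS => hout x hx ?_ _ (by simp))
        intro h; apply hxS
        simp only [Finset.mem_insert, Finset.mem_singleton] at h ⊢
        tauto

end Pool.Agent.R15.DegSq
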