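import Mathlib
import Pool.Agent.R15.DegSqB

namespace Pool.Agent.R15.DegSq
open Classical

/-- weight of the out-neighbourhood of `r` inside `R` -/
noncomputable def wOut {V : Type*} (E : V → V → Prop) (n : V → ℕ) (R : Finset V) (r : V) : ℕ :=
  ∑ s ∈ R.filter (fun s => E r s), n s

theorem wOut_le {V : Type*} {E : V → V → Prop} (hl : ∀ v, ¬ E v v) (n : V → ℕ) {R : Finset V}
    {r : V} (hr : r ∈ R) : wOut E n R r + n r ≤ ∑ s ∈ R, n s := by
  have h : R.filter (fun s => E r s) ⊆ R.erase r := by
    intro s hs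
    rw [Finset.mem_filter] at hs
    rw [Finset.mem_erase]
    exact ⟨fun e => hl r (by rw [e] at hs; exact hs.2), hs.1⟩
  have h2 : wOut E n R r ≤ ∑ s ∈ R.erase r, n s := Finset.sum_le_sum_of_subset h
  have h3 := Finset.sum_erase_add R n hr
  omega

theorem weighted {V : Type*} {E : V → V → Prop} (hl : ∀ v, ¬ E v v) (hF : NoR4 E)
    (n : V → ℕ) : ∀ (k : ℕ) (R : Finset V), R.card = k → Semi E R →
    9 * ∑ r ∈ R, n r * (wOut E n R r)^2
      + ((∑ r ∈ R, n r) % 3) * (3 * (∑ r ∈ R, n r) + 1) ≤ 4 * (∑ r ∈ R, n r)^3 := by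
  intro k
  induction k using Nat.strong_induction_on with
  | _ k ih =>
    intro R hk hS
    by_cases hne : R.Nonempty
    swap
    · have : R = ∅ := Finset.not_nonempty_iff_eq_empty.mp hne
      subst this
      simp
    obtain ⟨S, hSR, hcl, hsh⟩ := exists_initial hF R hS hne
    have hSne : S.Nonempty := by
      rcases hsh with ⟨s, rfl⟩ | ⟨s, t, _, _, _, rfl⟩ | ⟨s, t, u, _, _, _, _, _, _, rfl⟩ <;> simp
    have hcard : (R \ S).card < k := by
      rw [← hk]
      apply Finset.card_lt_card
      refine ⟨Finset.sdiff_subset, ?_⟩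
      intro h
      obtain ⟨s, hs⟩ := hSne
      have := h (hSR hs)
      rw [Finset.mem_sdiff] at this
      exact this.2 hs
    have hS' : Semi E (R \ S) := fun a ha b hb hab =>
      hS a (Finset.mem_sdiff.mp ha).1 b (Finset.mem_sdiff.mp hb).1 hab
    have IH := ih _ hcard (R \ S) rfl hS'
    have hsplit : ∀ f : V → ℕ, ∑ r ∈ R, f r = ∑ r ∈ S, f r + ∑ r ∈ R \ S, f r := by
      intro f
      rw [add_comm]
      exact (Finset.sum_sdiff hSR).symm
    have hrest : ∑ r ∈ R \ S, n r * (wOut E n R r)^2 = ∑ r ∈ R \ S, n r * (wOut E n (R \ S) r)^2 := by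
      apply Finset.sum_congr rfl
      intro r hr
      rw [Finset.mem_sdiff] at hr
      have : R.filter (fun s => E r s) = (R \ S).filter (fun s => E r s) := by
        ext s
        simp only [Finset.mem_filter, Finset.mem_sdiff]
        constructor
        · rintro ⟨h1, h2⟩
          exact ⟨⟨h1, fun hs => hcl r hr.1 hr.2 s hs h2⟩, h2⟩
        · rintro ⟨⟨h1, _⟩, h2⟩
          exact ⟨h1, h2⟩
      unfold wOut
      rw [this]
    rw [hsplit (fun r => n r * (wOut E n R r)^2), hrest, hsplit n]
    set ρ := ∑ r ∈ R \ S, n r with hρ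
    set Q := ∑ r ∈ R \ S, n r * (wOut E n (R \ S) r)^2 with hQ
    have hb : ∀ s ∈ S, wOut E n R s + n s ≤ ∑ r ∈ S, n r + ρ := by
      intro s hs
      have := wOut_le hl n (hSR hs)
      rw [hsplit n] at this
      exact this
    -- reduce to the arithmetic lemma
    have fin : ∀ x y z : ℕ, ∑ r ∈ S, n r = x + y + z →
        ∑ r ∈ S, n r * (wOut E n R r)^2 ≤ x*(y+z+ρ)^2 + y*(x+z+ρ)^2 + z*(x+y+ρ)^2 →
        9 * (∑ r ∈ S, n r * (wOut E n R r)^2 + Q)
          + ((∑ r ∈ S, n r + ρ) % 3) * (3 * (∑ r ∈ S, n r + ρ) + 1)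
          ≤ 4 * (∑ r ∈ S, n r + ρ)^3 := by
      intro x y z h1 h2
      rw [h1]
      have h3 := arith_block x y z ρ
      omega
    rcases hsh with ⟨s, rfl⟩ | ⟨s, t, hst, _, _, rfl⟩ | ⟨s, t, u, hst, htu, hus, _, _, _, rfl⟩
    · apply fin (n s) 0 0
      · simp
      · have h1 := hb s (by simp)
        rw [Finset.sum_singleton] at h1 ⊢
        have h2 : wOut E n R s ≤ 0 + 0 + ρ := by omega
        have := Nat.mul_le_mul_left (n s) (Nat.pow_le_pow_left h2 2)
        omega
    · apply fin (n s) (n t) 0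
      · rw [Finset.sum_pair hst]; rfl
      · have h1 := hb s (by simp)
        have h1' := hb t (by simp)
        rw [Finset.sum_pair hst] at h1 h1' ⊢
        have h2 : wOut E n R s ≤ n t + 0 + ρ := by omega
        have h2' : wOut E n R t ≤ n s + 0 + ρ := by omega
        have := Nat.mul_le_mul_left (n s) (Nat.pow_le_pow_left h2 2)
        have := Nat.mul_le_mul_left (n t) (Nat.pow_le_pow_left h2' 2)
        omega
    · have hsu : s ≠ u := hus.symm
      have e : ∀ f : V → ℕ, ∑ r ∈ ({s, t, u} : Finset V), f r = f s + f t + f u := by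
        intro f
        rw [Finset.sum_insert (by simp [hst, hsu]), Finset.sum_pair htu]
        ring
      apply fin (n s) (n t) (n u)
      · rw [e]
      · have h1 := hb s (by simp)
        have h1' := hb t (by simp)
        have h1'' := hb u (by simp)
        rw [e] at h1 h1' h1'' ⊢
        have h2 : wOut E n R s ≤ n t + n u + ρ := by omega
        have h2' : wOut E n R t ≤ n s + n u + ρ := by omega
        have h2'' : wOut E n R u ≤ n s + n t + ρ := by omega
        have := Nat.mul_le_mul_left (n s) (Nat.pow_le_pow_left h2 2)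
        have := Nat.mul_le_mul_left (n t) (Nat.pow_le_pow_left h2' 2)
        have := Nat.mul_le_mul_left (n u) (Nat.pow_le_pow_left h2'' 2)
        omega

end Pool.Agent.R15.DegSq
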