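import Mathlib
import Pool.Agent.R15.DegSqC

namespace Pool.Agent.R15.DegSq
open Classical

variable {V : Type*} [Fintype V]

noncomputable def ind (p : Prop) : ℤ := if p then 1 else 0

noncomputable def outD (E : V → V → Prop) (v : V) : ℕ := (Finset.univ.filter (fun w => E v w)).card

noncomputable def obj (E : V → V → Prop) : ℕ := ∑ v, (outD E v)^2

theorem outD_ind (E : V → V → Prop) (v : V) : (outD E v : ℤ) = ∑ w, ind (E v w) := by
  unfold outD ind
  rw [Finset.card_filter]
  push_cast
  rfl

/-- replace `u` by a copy of `v` -/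
noncomputable def sub (u v : V) (a : V) : V := if a = u then v else a

noncomputable def clone (E : V → V → Prop) (u v : V) : V → V → Prop := fun a b => E (sub u v a) (sub u v b)

theorem sum_sub (u v : V) (f : V → ℤ) : ∑ a, f (sub u v a) = ∑ a, f a + f v - f u := by
  have h : ∑ a, (f (sub u v a) - f a) = f v - f u := by
    rw [Finset.sum_eq_single u]
    · simp [sub]
    · intro b _ hb
      simp [sub, hb]
    · intro h; exact absurd (Finset.mem_univ u) h
  rw [Finset.sum_sub_distrib] at h
  linarith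

theorem outD_clone (E : V → V → Prop) (u v a : V) :
    (outD (clone E u v) a : ℤ)
      = outD E (sub u v a) + (ind (E (sub u v a) v) - ind (E (sub u v a) u)) := by
  rw [outD_ind, outD_ind]
  have := sum_sub u v (fun b => ind (E (sub u v a) b))
  unfold clone
  rw [this]; ring

theorem obj_clone {E : V → V → Prop} (hl : ∀ v, ¬ E v v) {u v : V} (h1 : ¬ E u v)
    (h2 : ¬ E v u) :
    (obj (clone E u v) : ℤ) = ∑ a, ((outD E a : ℤ) + (ind (E a v) - ind (E a u)))^2
      + (outD E v : ℤ)^2 - (outD E u : ℤ)^2 := by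
  unfold obj
  push_cast
  have e : ∀ a, (outD (clone E u v) a : ℤ)^2 =
      (fun x => ((outD E x : ℤ) + (ind (E x v) - ind (E x u)))^2) (sub u v a) := by
    intro a
    rw [outD_clone]
  rw [Finset.sum_congr rfl (fun a _ => e a)]
  refine (sum_sub u v (fun x => ((outD E x : ℤ) + (ind (E x v) - ind (E x u)))^2)).trans ?_
  simp [ind, hl, h1, h2]

theorem symm_of_max {E : V → V → Prop} (hl : ∀ v, ¬ E v v) (hF : NoR4 E)
    (hmax : ∀ E' : V → V → Prop, (∀ v, ¬ E' v v) → NoR4 E' → obj E' ≤ obj E)
    {u v : V} (h1 : ¬ E u v) (h2 : ¬ E v u) :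
    (∀ w, E w u ↔ E w v) ∧ outD E u = outD E v := by
  have c1 : ∀ x y : V, obj (clone E x y) ≤ obj E := by
    intro x y
    apply hmax
    · intro a; exact hl _
    · intro a b c d; exact hF _ _ _ _
  have k1 := obj_clone hl h1 h2
  have k2 := obj_clone hl h2 h1
  have l1 : (obj (clone E u v) : ℤ) ≤ obj E := by exact_mod_cast c1 u v
  have l2 : (obj (clone E v u) : ℤ) ≤ obj E := by exact_mod_cast c1 v u
  have o : (obj E : ℤ) = ∑ a, (outD E a : ℤ)^2 := by unfold obj; push_cast; rfl
  have s : ∑ a, ((outD E a : ℤ) + (ind (E a v) - ind (E a u)))^2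
      + ∑ a, ((outD E a : ℤ) + (ind (E a u) - ind (E a v)))^2
      = 2 * ∑ a, (outD E a : ℤ)^2 + 2 * ∑ a, (ind (E a v) - ind (E a u))^2 := by
    rw [← Finset.sum_add_distrib, Finset.mul_sum, Finset.mul_sum, ← Finset.sum_add_distrib]
    apply Finset.sum_congr rfl
    intro a _
    ring
  have z : ∑ a, (ind (E a v) - ind (E a u))^2 ≤ 0 := by
    linarith
  have z2 : ∀ a, (ind (E a v) - ind (E a u)) = 0 := by
    intro a
    have h := Finset.single_le_sum (f := fun a => (ind (E a v) - ind (E a u))^2)
      (fun i _ => sq_nonneg _) (Finset.mem_univ a)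
    have h' : (ind (E a v) - ind (E a u))^2 ≤ 0 := le_trans h z
    exact pow_eq_zero_iff (two_ne_zero) |>.mp (le_antisymm h' (sq_nonneg _))
  have iff1 : ∀ w, E w u ↔ E w v := by
    intro w
    have := z2 w
    unfold ind at this
    by_cases a1 : E w v <;> by_cases a2 : E w u <;> simp [a1, a2] at this ⊢
  refine ⟨iff1, ?_⟩
  have z3 : ∀ a, (ind (E a u) - ind (E a v)) = 0 := fun a => by linarith [z2 a]
  simp only [z2, z3, add_zero] at k1 k2
  have hh : (outD E v : ℤ)^2 = (outD E u : ℤ)^2 := by linarith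
  have hh' : (outD E v)^2 = (outD E u)^2 := by exact_mod_cast hh
  exact (Nat.pow_left_injective (n := 2) (by norm_num) hh').symm

theorem bound_max {E : V → V → Prop} (hl : ∀ v, ¬ E v v) (hF : NoR4 E)
    (hmax : ∀ E' : V → V → Prop, (∀ v, ¬ E' v v) → NoR4 E' → obj E' ≤ obj E) :
    9 * obj E + (Fintype.card V % 3) * (3 * Fintype.card V + 1) ≤ 4 * (Fintype.card V)^3 := by
  have hs := fun {u v : V} (h1 : ¬ E u v) (h2 : ¬ E v u) => symm_of_max hl hF hmax h1 h2
  let S : Setoid V :=
    { r := fun u v => ¬ E u v ∧ ¬ E v u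
      iseqv := by
        refine ⟨fun u => ⟨hl u, hl u⟩, fun h => ⟨h.2, h.1⟩, ?_⟩
        intro u v w h1 h2
        obtain ⟨a1, a2⟩ := hs h1.1 h1.2
        obtain ⟨b1, b2⟩ := hs h2.1 h2.2
        refine ⟨fun h => h1.1 ((b1 u).mpr h), fun h => h2.2 ((a1 w).mp h)⟩ }
  let c : V → V := fun v => (Quotient.mk S v).out
  have hc : ∀ v, ¬ E (c v) v ∧ ¬ E v (c v) := fun v => Quotient.exact (Quotient.out_eq (Quotient.mk S v))
  have hcc : ∀ v w, (¬ E v w ∧ ¬ E w v) → c v = c w := by
    intro v w h
    have : Quotient.mk S v = Quotient.mk S w := Quotient.sound h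
    change (Quotient.mk S v).out = (Quotient.mk S w).out
    rw [this]
  have hidem : ∀ v, c (c v) = c v := fun v => hcc _ _ (hc v)
  set R : Finset V := Finset.univ.image c with hR
  let n : V → ℕ := fun r => (Finset.univ.filter (fun v => c v = r)).card
  have hsum : ∀ f : V → ℕ, ∑ v, f (c v) = ∑ r ∈ R, n r * f r := by
    intro f
    rw [Finset.sum_comp f c]
    simp only [smul_eq_mul]
    rfl
  have hout : ∀ r, outD E r = wOut E n R r := by
    intro r
    have e1 : outD E r = ∑ b, (fun s => if E r s then 1 else 0) (c b) := by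
      unfold outD
      rw [Finset.card_filter]
      apply Finset.sum_congr rfl
      intro b _
      have := (hs (hc b).1 (hc b).2).1 r
      by_cases h : E r b
      · simp [h, this.mpr h]
      · have h' : ¬ E r (c b) := fun h' => h (this.mp h')
        simp [h, h']
    rw [e1]
    refine (hsum (fun s => if E r s then 1 else 0)).trans ?_
    unfold wOut
    rw [Finset.sum_filter]
    apply Finset.sum_congr rfl
    intro s _
    by_cases h : E r s <;> simp [h]
  have hobj : obj E = ∑ r ∈ R, n r * (wOut E n R r)^2 := by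
    have e1 : obj E = ∑ v, (fun r => (outD E r)^2) (c v) := by
      unfold obj
      apply Finset.sum_congr rfl
      intro v _
      have := (hs (hc v).1 (hc v).2).2
      simp only [this]
    rw [e1]
    refine (hsum (fun r => (outD E r)^2)).trans ?_
    apply Finset.sum_congr rfl
    intro r _
    simp only [hout]
  have hm : ∑ r ∈ R, n r = Fintype.card V := by
    have := hsum (fun _ => 1)
    simp only [mul_one] at this
    rw [← this]
    simp
  have hsemi : Semi E R := by
    intro a ha b hb hab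
    by_contra hcon
    push Not at hcon
    rw [hR, Finset.mem_image] at ha hb
    obtain ⟨v, _, rfl⟩ := ha
    obtain ⟨w, _, rfl⟩ := hb
    have := hcc _ _ hcon
    rw [hidem, hidem] at this
    exact hab this
  have := weighted hl hF n _ R rfl hsemi
  rw [hm, ← hobj] at this
  exact this

theorem bound {E : V → V → Prop} (hl : ∀ v, ¬ E v v) (hF : NoR4 E) :
    9 * obj E + (Fintype.card V % 3) * (3 * Fintype.card V + 1) ≤ 4 * (Fintype.card V)^3 := by
  let T := {E : V → V → Prop // (∀ v, ¬ E v v) ∧ NoR4 E}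
  have : Nonempty T := ⟨⟨E, hl, hF⟩⟩
  have : Finite T := inferInstance
  obtain ⟨E0, h0⟩ := Finite.exists_max (fun E : T => obj E.1)
  have hb := bound_max E0.2.1 E0.2.2 (fun E' h1 h2 => h0 ⟨E', h1, h2⟩)
  have := h0 ⟨E, hl, hF⟩
  simp only at this
  omega

end Pool.Agent.R15.DegSq
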