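import Mathlib
import Pool.Agent.R15.RW.Upper
import Pool.Agent.R15.RW.Lower

/-!
# Diagonal Ramsey numbers of colourings of bounded rank-width

A colouring of the edges of a complete graph with two colours is a graph `G` (the edges of the first
colour); there is no monochromatic `K_k` if `G` and its complement have no clique with `k` vertices.
The rank-width of the colouring (of `G`) is at most `w` if the vertices are the leaves of a binary
tree such that the sets of the leaves below a node all have cut-rank at most `w` (rank over `F_2` of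
the matrix of the colours between the set and its complement).

The maximum of `log N` over the colourings of rank-width at most `w` with `N` vertices and without
monochromatic `K_k` is of the order `(w / log w) log k`, for all `13 ≤ w ≤ k`. For `w = ε k` the
growth rate is of the order `ε`. In particular, the rank-width of a colouring with `2 ^ (k / 2)`
vertices without monochromatic `K_k` is at least `k / 15` for large `k`.
-/

set_option autoImplicit false

namespace Pool.Agent.Results.MP_28724c_co.RankWidth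

open Pool.Agent.R15.RW

theorem growth_upper (ε : ℝ) (h0 : 0 < ε) : ∃ K : ℕ, ∀ k : ℕ, K ≤ k →
    4 * ((⌊ε * k⌋₊ : ℝ) + 2) / Real.log ((⌊ε * k⌋₊ : ℝ) + 2) * Real.log k ≤ 5 * ε * k := by
  obtain ⟨K1, hK1⟩ := exists_nat_ge (20 / ε)
  obtain ⟨K2, hK2⟩ := exists_nat_ge (Real.exp (11 * |Real.log ε|))
  refine ⟨max (max K1 K2) 2, ?_⟩
  intro k hk
  have hk1 : (20 / ε : ℝ) ≤ k := hK1.trans (by
    exact_mod_cast (le_max_left _ _).trans ((le_max_left _ _).trans hk))
  have hk2 : Real.exp (11 * |Real.log ε|) ≤ k := hK2.trans (by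
    exact_mod_cast (le_max_right _ _).trans ((le_max_left _ _).trans hk))
  have hk3 : (2 : ℝ) ≤ k := by exact_mod_cast (le_max_right _ _).trans hk
  have hkpos : (0 : ℝ) < k := by linarith
  set x : ℝ := (⌊ε * k⌋₊ : ℝ) + 2 with hx
  have hek : 20 ≤ ε * k := by
    rw [div_le_iff₀ h0] at hk1
    linarith
  have hx1 : x ≤ ε * k + 2 := by
    have := Nat.floor_le (a := ε * k) (by linarith)
    linarith
  have hx2 : ε * k < x := by
    have := Nat.lt_floor_add_one (ε * k)
    linarith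
  have hx0 : 0 < x := by linarith
  have hlogx : Real.log ε + Real.log k ≤ Real.log x := by
    rw [← Real.log_mul h0.ne' hkpos.ne']
    exact Real.log_le_log (by linarith) hx2.le
  have hlogx0 : 0 < Real.log x := Real.log_pos (by linarith)
  have hlk : 11 * |Real.log ε| ≤ Real.log k := by
    rw [Real.le_log_iff_exp_le hkpos]
    exact hk2
  have habs := neg_abs_le (Real.log ε)
  have hlk0 : 0 < Real.log k := Real.log_pos (by linarith)
  have h3 : Real.log k ≤ 1.1 * Real.log x := by linarith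
  have h4 : x ≤ 1.1 * (ε * k) := by linarith
  have h5 : 4 * x / Real.log x * Real.log k ≤ 4.4 * x := by
    rw [div_mul_eq_mul_div, div_le_iff₀ hlogx0]
    nlinarith [mul_le_mul_of_nonneg_left h3 hx0.le]
  calc 4 * x / Real.log x * Real.log k ≤ 4.4 * x := h5
    _ ≤ 4.4 * (1.1 * (ε * k)) := by linarith
    _ ≤ 5 * ε * k := by nlinarith

theorem growth_lower (ε : ℝ) (h0 : 0 < ε) (h1 : ε ≤ 1) : ∃ K : ℕ, ∀ k : ℕ, K ≤ k →
    13 ≤ ⌊ε * k⌋₊ ∧ ⌊ε * k⌋₊ ≤ k ∧
    ε / 21 * k ≤ (⌊ε * k⌋₊ : ℝ) / (20 * Real.log (⌊ε * k⌋₊ : ℝ)) * Real.log k := by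
  obtain ⟨K1, hK1⟩ := exists_nat_ge (21 / ε)
  refine ⟨K1, ?_⟩
  intro k hk
  have hk1 : (21 / ε : ℝ) ≤ k := hK1.trans (by exact_mod_cast hk)
  have hek : 21 ≤ ε * k := by
    rw [div_le_iff₀ h0] at hk1
    linarith
  have hkpos : (0 : ℝ) < k := by
    have : 0 < 21 / ε := by positivity
    linarith
  have h13 : 13 ≤ ⌊ε * k⌋₊ := Nat.le_floor (by push_cast; linarith)
  have hle : ⌊ε * k⌋₊ ≤ k := by
    have h2 : (⌊ε * k⌋₊ : ℝ) ≤ k := (Nat.floor_le (by linarith)).trans (by nlinarith)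
    exact_mod_cast h2
  refine ⟨h13, hle, ?_⟩
  have hw : (13 : ℝ) ≤ (⌊ε * k⌋₊ : ℝ) := by exact_mod_cast h13
  have hwk : (⌊ε * k⌋₊ : ℝ) ≤ k := by exact_mod_cast hle
  have hlw : 0 < Real.log (⌊ε * k⌋₊ : ℝ) := Real.log_pos (by linarith)
  have hlk : Real.log (⌊ε * k⌋₊ : ℝ) ≤ Real.log k := Real.log_le_log (by linarith) hwk
  have h3 : (⌊ε * k⌋₊ : ℝ) / 20 ≤
      (⌊ε * k⌋₊ : ℝ) / (20 * Real.log (⌊ε * k⌋₊ : ℝ)) * Real.log k := by
    rw [div_mul_eq_mul_div, le_div_iff₀ (by positivity)]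
    nlinarith [mul_le_mul_of_nonneg_left hlk (by linarith : (0 : ℝ) ≤ (⌊ε * k⌋₊ : ℝ))]
  refine le_trans ?_ h3
  have := Nat.lt_floor_add_one (ε * k)
  linarith

/-- (1) A colouring of rank-width at most `w` with `N` vertices and without monochromatic `K_k` has
`log N ≤ 4 (w + 2) / log (w + 2) * log k`. (2) For `13 ≤ w ≤ k` there is such a colouring with
`log N ≥ w / (20 log w) * log k`. (3) Hence for `0 < ε ≤ 1` the growth rate `log N / k` of the
diagonal Ramsey numbers of the colourings of rank-width at most `ε k` is between `ε / 21` and `5 ε`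
for large `k`. -/
theorem result :
    (∀ (V : Type) [Fintype V] [Nonempty V] (G : SimpleGraph V) (w k : ℕ), 2 ≤ k →
      RankWidthLe G w → G.CliqueFree k → Gᶜ.CliqueFree k →
      Real.log (Fintype.card V) ≤ 4 * (w + 2) / Real.log (w + 2) * Real.log k) ∧
    (∀ w k : ℕ, 13 ≤ w → w ≤ k → ∃ (V : Type) (_ : Fintype V) (G : SimpleGraph V),
      RankWidthLe G w ∧ G.CliqueFree k ∧ Gᶜ.CliqueFree k ∧
      (w : ℝ) / (20 * Real.log w) * Real.log k ≤ Real.log (Fintype.card V)) ∧
    (∀ ε : ℝ, 0 < ε → ε ≤ 1 → ∃ K : ℕ, ∀ k : ℕ, K ≤ k →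
      (∀ (V : Type) [Fintype V] [Nonempty V] (G : SimpleGraph V), RankWidthLe G ⌊ε * k⌋₊ →
        G.CliqueFree k → Gᶜ.CliqueFree k → Real.log (Fintype.card V) ≤ 5 * ε * k) ∧
      (∃ (V : Type) (_ : Fintype V) (G : SimpleGraph V), RankWidthLe G ⌊ε * k⌋₊ ∧
        G.CliqueFree k ∧ Gᶜ.CliqueFree k ∧ ε / 21 * k ≤ Real.log (Fintype.card V))) := by
  refine ⟨fun V _ _ G w k hk hG h1 h2 => upper G hG hk h1 h2, fun w k h1 h2 => lower w k h1 h2, ?_⟩
  intro ε h0 h1
  obtain ⟨K1, hK1⟩ := growth_upper ε h0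
  obtain ⟨K2, hK2⟩ := growth_lower ε h0 h1
  refine ⟨max (max K1 K2) 2, ?_⟩
  intro k hk
  have hk1 : K1 ≤ k := (le_max_left _ _).trans ((le_max_left _ _).trans hk)
  have hk2 : K2 ≤ k := (le_max_right _ _).trans ((le_max_left _ _).trans hk)
  have hk3 : 2 ≤ k := (le_max_right _ _).trans hk
  refine ⟨?_, ?_⟩
  · intro V _ _ G hG c1 c2
    exact (upper G hG hk3 c1 c2).trans (hK1 k hk1)
  · obtain ⟨a1, a2, a3⟩ := hK2 k hk2
    obtain ⟨V, hV, G, b1, b2, b3, b4⟩ := lower _ k a1 a2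
    exact ⟨V, hV, G, b1, b2, b3, a3.trans b4⟩

end Pool.Agent.Results.MP_28724c_co.RankWidth
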